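import Pool.Agent.Run7.h484.KB.Multi
import Pool.Agent.TH635.AA.Ply
import Pool.Agent.TH635.AA.Fix
import Pool.Agent.TH784.AA.Mix

/-!
# Polynomial phases and factors with discrete spectrum
-/

set_option autoImplicit false
set_option linter.unusedSectionVars false

open MeasureTheory Filter Topology

noncomputable section

namespace Pool.Agent.Run7.h484.KB

open Pool.Agent.W761.Box (bx bxc BM Good1 Cv Cv_add Cv_smul Cv_zero Cv_closed prod_update bxc_mul
  bxc_add)

section phase

variable {k : ℕ} {ι : Type*} [Fintype ι]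

/-- box averages of products of powers with polynomial exponents -/
theorem phase_conv (χ : ι → Circle) (p : ι → MvPolynomial (Fin k) ℤ) :
    ∃ L : ℂ, Tendsto (fun N => bxc k N fun n =>
      ((∏ i, χ i ^ (MvPolynomial.eval (fun l => ((n l : ℕ) : ℤ)) (p i)) : Circle) : ℂ))
      atTop (𝓝 L) := by
  classical
  have hD : ∃ D : ℕ, ∀ i, (p i).totalDegree ≤ D := by
    refine ⟨∑ i, (p i).totalDegree, fun i => ?_⟩
    exact Finset.single_le_sum (f := fun i => (p i).totalDegree) (fun _ _ => Nat.zero_le _)
      (Finset.mem_univ i)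
  obtain ⟨D, hD⟩ := hD
  let w : ι → (Fin k → ℤ) → Additive Circle := fun i n =>
    (MvPolynomial.eval n (p i)) • Additive.ofMul (χ i)
  have h1 : ∀ i, Pool.Agent.W742.CU.IsPoly (k * (D + 1))
      (fun n : Fin k → ℤ => MvPolynomial.eval n (p i)) := by
    intro i
    refine Pool.Agent.TH635.AA.sep_isPoly ?_
    have h2 := Pool.Agent.TH635.AA.sep_eval (p i) (hD i) 1 (0 : Fin k → ℤ)
    intro m l
    have h3 := h2 m l
    have e : (fun t => MvPolynomial.eval (Function.update m l t) (p i)) =
        fun t => MvPolynomial.eval (fun j => (0 : Fin k → ℤ) j + 1 * Function.update m l t j)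
          (p i) := by
      funext t
      congr 2
      funext j
      simp
    rw [e]
    exact h3
  have h2 : Pool.Agent.W742.CU.IsPoly (k * (D + 1)) (fun n => ∑ i, w i n) := by
    refine Pool.Agent.W742.CU.IsPoly.sum _ fun i _ => ?_
    have h3 := (h1 i).map (zmultiplesHom (Additive Circle) (Additive.ofMul (χ i)))
    exact h3
  have h3 := h2.map Pool.Agent.TH784.AA.toU
  obtain ⟨c, hc⟩ := Pool.Agent.TH784.AA.um_poly h3
  refine ⟨c, (Pool.Agent.TH784.AA.conv_of_um hc).congr fun N => ?_⟩
  congr 1
  funext n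
  rw [Pool.Agent.TH784.AA.ev_toU]
  have e : (∑ i, w i (Pool.Agent.TH784.AA.nz n)).toMul =
      ∏ i, χ i ^ (MvPolynomial.eval (fun l => ((n l : ℕ) : ℤ)) (p i)) := by
    rw [toMul_sum]
    rfl
  rw [e]

end phase

section dense

variable {X : Type*} [MeasurableSpace X] {J : Type*} [Fintype J] [DecidableEq J] {k : ℕ}

/-- From a class `𝓔` of functions to the functions which are limits of linear combinations. -/
theorem Cv_dense {μ : Measure X} [IsProbabilityMeasure μ] {g : J → (Fin k → ℕ) → X → X}
    (hg : ∀ j m, MeasurePreserving (g j m) μ μ) (hgood : ∀ j, Good1 μ (g j))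
    {𝓔 : Set (X → ℂ)} (h𝓔 : ∀ f ∈ 𝓔, BM f)
    (hE : ∀ F : J → X → ℂ, (∀ j, F j ∈ 𝓔) → Cv μ g F)
    {F : J → X → ℂ} (hF : ∀ j, BM (F j) ∧ ∀ ε : ℝ, 0 < ε → ∃ (s : ℕ) (c : Fin s → ℂ)
      (h : Fin s → X → ℂ), (∀ i, h i ∈ 𝓔) ∧ ∫ x, ‖F j x - ∑ i, c i * h i x‖ ∂μ ≤ ε) :
    Cv μ g F := by
  classical
  have key : ∀ (B : Finset J) (F : J → X → ℂ),
      (∀ j ∈ B, BM (F j) ∧ ∀ ε : ℝ, 0 < ε → ∃ (s : ℕ) (c : Fin s → ℂ)
        (h : Fin s → X → ℂ), (∀ i, h i ∈ 𝓔) ∧ ∫ x, ‖F j x - ∑ i, c i * h i x‖ ∂μ ≤ ε) →
      (∀ j ∉ B, F j ∈ 𝓔) → Cv μ g F := by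
    intro B
    induction B using Finset.induction_on with
    | empty =>
      intro F _ hF2
      exact hE F fun j => hF2 j (Finset.notMem_empty j)
    | insert v B hv ih =>
      intro F hF1 hF2
      have hBMall : ∀ w, BM (F w) := by
        intro w
        by_cases hw : w ∈ insert v B
        · exact (hF1 w hw).1
        · exact h𝓔 _ (hF2 w hw)
      have hone : ∀ h ∈ 𝓔, Cv μ g (Function.update F v h) := by
        intro h hh
        apply ih
        · intro w hw
          have hwv : w ≠ v := fun e => hv (e ▸ hw)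
          rw [Function.update_of_ne hwv]
          exact hF1 w (Finset.mem_insert_of_mem hw)
        · intro w hw
          by_cases hwv : w = v
          · subst hwv
            rw [Function.update_self]
            exact hh
          · rw [Function.update_of_ne hwv]
            apply hF2
            intro hmem
            rcases Finset.mem_insert.mp hmem with h5 | h5
            · exact hwv h5
            · exact hw h5
      have hcomb : ∀ (s : ℕ) (c : Fin s → ℂ) (h : Fin s → X → ℂ), (∀ i, h i ∈ 𝓔) →
          ∀ T : Finset (Fin s), Cv μ g (Function.update F v (∑ i ∈ T, c i • h i)) := by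
        intro s c h hh T
        induction T using Finset.induction_on with
        | empty =>
          rw [Finset.sum_empty]
          exact Cv_zero
        | insert a T ha ihT =>
          rw [Finset.sum_insert ha]
          exact Cv_add (Cv_smul _ (hone _ (hh a))) ihT
      obtain ⟨hBM, happ⟩ := hF1 v (Finset.mem_insert_self v B)
      have hgoal : Cv μ g (Function.update F v (F v)) := by
        refine Cv_closed hg hgood hBMall hBM fun ε hε => ?_
        obtain ⟨s, c, h, hh, hle⟩ := happ ε hε
        refine ⟨∑ i, c i • h i, ?_, ?_, hcomb s c h hh Finset.univ⟩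
        · choose hm C hC using fun i => h𝓔 (h i) (hh i)
          refine ⟨?_, ∑ i, ‖c i‖ * |C i|, fun x => ?_⟩
          · have e : (∑ i, c i • h i) = fun x => ∑ i, (c i • h i) x := by
              funext x
              rw [Finset.sum_apply]
            rw [e]
            exact Finset.measurable_fun_sum _ fun i _ => (hm i).const_smul (c i)
          rw [Finset.sum_apply]
          refine (norm_sum_le _ _).trans (Finset.sum_le_sum fun i _ => ?_)
          rw [Pi.smul_apply, smul_eq_mul, norm_mul]
          exact mul_le_mul_of_nonneg_left ((hC i x).trans (le_abs_self _)) (norm_nonneg _)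
        · refine le_trans (le_of_eq ?_) hle
          congr 1
          funext x
          rw [Finset.sum_apply]
          rfl
      rwa [Function.update_eq_self] at hgoal
  exact key Finset.univ F (fun v _ => hF v) fun v hv => absurd (Finset.mem_univ v) hv

end dense

section disc

variable {X G : Type*} [Group G]

/-- The ordered product `t_1^(p_1(n)) ⋯ t_d^(p_d(n))`. -/
def word {d k : ℕ} (t : Fin d → G) (p : Fin d → MvPolynomial (Fin k) ℤ) (n : Fin k → ℕ) : G :=
  (List.ofFn fun i : Fin d => t i ^ MvPolynomial.eval (fun l => ((n l : ℕ) : ℤ)) (p i)).prod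

theorem map_word {H : Type*} [CommGroup H] {d k : ℕ} (χ : G →* H) (t : Fin d → G)
    (p : Fin d → MvPolynomial (Fin k) ℤ) (n : Fin k → ℕ) :
    χ (word t p n) = ∏ i, χ (t i) ^ MvPolynomial.eval (fun l => ((n l : ℕ) : ℤ)) (p i) := by
  unfold word
  rw [map_list_prod, List.map_ofFn, List.prod_ofFn]
  refine Finset.prod_congr rfl fun i _ => ?_
  rw [Function.comp_apply, map_zpow]

variable {J : Type*} [Fintype J] [DecidableEq J]

theorem eig_conv [MeasurableSpace X] {μ : Measure X} {Φ : G →* Equiv.Perm X} {d k : ℕ}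
    (t : Fin d → G) (P : J → Fin d → MvPolynomial (Fin k) ℤ) {h : J → X → ℂ} {χ : J → G →* Circle}
    (hh : ∀ j g, ∀ᵐ x ∂μ, h j (Φ g x) = (χ j g : ℂ) * h j x) :
    Cv μ (fun j n => (Φ (word t (P j) n) : X → X)) h := by
  have h1 : ∀ᵐ x ∂μ, ∀ (n : Fin k → ℕ) (j : J), h j (Φ (word t (P j) n) x) =
      (χ j (word t (P j) n) : ℂ) * h j x := by
    rw [ae_all_iff]
    intro n
    rw [ae_all_iff]
    intro j
    exact hh j _
  filter_upwards [h1] with x hx
  obtain ⟨L, hL⟩ := phase_conv (ι := J × Fin d) (fun a => χ a.1 (t a.2)) (fun a => P a.1 a.2)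
  refine ⟨(∏ j, h j x) * L, (hL.const_mul (∏ j, h j x)).congr fun N => ?_⟩
  rw [← bxc_mul]
  congr 1
  funext n
  rw [Finset.prod_congr rfl fun j _ => hx n j, Finset.prod_mul_distrib, mul_comm]
  congr 1
  have e : ∏ a : J × Fin d, χ a.1 (t a.2) ^
      MvPolynomial.eval (fun l => ((n l : ℕ) : ℤ)) (P a.1 a.2) =
      ∏ j, χ j (word t (P j) n) := by
    rw [Fintype.prod_prod_type]
    refine Finset.prod_congr rfl fun j _ => ?_
    rw [map_word]
  rw [e]
  exact map_prod Circle.coeHom _ _

end disc

end Pool.Agent.Run7.h484.KB
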