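import Pool.Agent.Run7.h484.KB.Zero

/-!
# Polynomials are dispersed and separated
-/

set_option autoImplicit false

open MeasureTheory Filter Topology

noncomputable section

namespace Pool.Agent.Run7.h484.KB

open Pool.Agent.TH784.KE
open Pool.Agent.W761.Box (bx bx_add bx_mul bx_sum bx_mono bx_abs bx_const_le bx_nonneg)
open Pool.Agent.TH784.AA (bxs mem_bxs vol vol_pos vol_nonneg card_bxs sum_fiber bxs_mono)

/-- a large set of natural numbers contains many well spaced points -/
theorem spaced {g : ℕ} (hg : 0 < g) (n : ℕ) : ∀ T : Finset ℕ, n * g < T.card →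
    ∃ S ⊆ T, S.card = n + 1 ∧ ∀ a ∈ S, ∀ b ∈ S, a < b → a + g ≤ b := by
  induction n with
  | zero =>
    intro T hT
    rw [Nat.zero_mul, Finset.card_pos] at hT
    obtain ⟨t, ht⟩ := hT
    refine ⟨{t}, Finset.singleton_subset_iff.2 ht, Finset.card_singleton t, ?_⟩
    intro a ha b hb hab
    rw [Finset.mem_singleton] at ha hb
    omega
  | succ n ih =>
    intro T hT
    have hne : T.Nonempty := Finset.card_pos.1 (lt_of_le_of_lt (Nat.zero_le _) hT)
    set t₀ := T.min' hne with ht₀
    have hmem : t₀ ∈ T := T.min'_mem hne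
    set T' := T.filter fun t => t₀ + g ≤ t with hT'
    have hsub : T ⊆ T' ∪ Finset.Ico t₀ (t₀ + g) := by
      intro t ht
      rw [Finset.mem_union, hT', Finset.mem_filter, Finset.mem_Ico]
      have h1 : t₀ ≤ t := T.min'_le t ht
      by_cases h2 : t₀ + g ≤ t
      · exact Or.inl ⟨ht, h2⟩
      · exact Or.inr ⟨h1, by omega⟩
    have hcard : n * g < T'.card := by
      have h1 := (Finset.card_le_card hsub).trans (Finset.card_union_le _ _)
      rw [Nat.card_Ico] at h1
      rw [Nat.succ_mul] at hT
      omega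
    obtain ⟨S, hS, hSc, hSs⟩ := ih T' hcard
    have hS' : ∀ a ∈ S, a ∈ T ∧ t₀ + g ≤ a := fun a ha => Finset.mem_filter.1 (hS ha)
    have hnot : t₀ ∉ S := fun h => by
      have := (hS' t₀ h).2
      omega
    refine ⟨insert t₀ S, ?_, ?_, ?_⟩
    · intro a ha
      rcases Finset.mem_insert.1 ha with rfl | h
      · exact hmem
      · exact (hS' a h).1
    · rw [Finset.card_insert_of_notMem hnot, hSc]
    · intro a ha b hb hab
      rcases Finset.mem_insert.1 ha with h1 | h1
      · rcases Finset.mem_insert.1 hb with h2 | h2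
        · omega
        · rw [h1]
          exact (hS' b h2).2
      · rcases Finset.mem_insert.1 hb with h2 | h2
        · have := (hS' a h1).2
          omega
        · exact hSs a h1 b h2 hab

/-- a real polynomial takes values in a short interval only boundedly often -/
theorem mult_poly (D : ℕ) (hD : 1 ≤ D) {c₀ R : ℝ} (hc : 0 < c₀) (hR : 0 < R) :
    ∃ L : ℕ, ∀ Q : Polynomial ℝ, Q.natDegree ≤ D → c₀ ≤ |Q.coeff D| →
      Mult (fun t => Q.eval (t : ℝ)) R L := by
  obtain ⟨g, hg⟩ := exists_nat_gt (max (((D : ℝ) + 1) * R / c₀) 1)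
  have hg1 : (1 : ℝ) < g := (le_max_right _ _).trans_lt hg
  have hg2 : ((D : ℝ) + 1) * R / c₀ < g := (le_max_left _ _).trans_lt hg
  have hg0 : 0 < g := by exact_mod_cast (lt_trans one_pos hg1)
  have hgr : (0 : ℝ) < g := by exact_mod_cast hg0
  refine ⟨D * g, fun Q hQ hQc T s hT => ?_⟩
  by_contra hcon
  rw [not_le] at hcon
  obtain ⟨S, hS, hSc, hSs⟩ := spaced hg0 D T hcon
  have hdeg : (Q - Polynomial.C s).degree < S.card := by
    rw [hSc]
    refine lt_of_le_of_lt (Polynomial.degree_le_of_natDegree_le (n := D) ?_) ?_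
    · refine (Polynomial.natDegree_sub_le _ _).trans ?_
      rw [Polynomial.natDegree_C]
      omega
    · exact_mod_cast Nat.lt_succ_self D
  have hinj : Set.InjOn (fun t : ℕ => (t : ℝ)) S := Nat.cast_injective.injOn
  have h1 := Lagrange.coeff_eq_sum hinj hdeg
  have h2 : (Q - Polynomial.C s).coeff (S.card - 1) = Q.coeff D := by
    rw [hSc, Nat.add_sub_cancel, Polynomial.coeff_sub, Polynomial.coeff_C_ne_zero (by omega),
      sub_zero]
  rw [h2] at h1
  have h3 : |Q.coeff D| ≤ ∑ i ∈ S, R / g := by
    rw [h1]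
    refine (Finset.abs_sum_le_sum_abs _ _).trans (Finset.sum_le_sum fun i hi => ?_)
    rw [abs_div, Finset.abs_prod]
    have h4 : |(Q - Polynomial.C s).eval (i : ℝ)| ≤ R := by
      rw [Polynomial.eval_sub, Polynomial.eval_C]
      have := hT i (hS hi)
      rw [abs_le]
      constructor <;> linarith [this.1, this.2]
    have h5 : (g : ℝ) ≤ ∏ j ∈ S.erase i, |(i : ℝ) - j| := by
      have h6 : (g : ℝ) ^ D ≤ ∏ j ∈ S.erase i, |(i : ℝ) - j| := by
        have h7 : (g : ℝ) ^ D = ∏ _j ∈ S.erase i, (g : ℝ) := by
          rw [Finset.prod_const, Finset.card_erase_of_mem hi, hSc, Nat.add_sub_cancel]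
        rw [h7]
        refine Finset.prod_le_prod (fun _ _ => hgr.le) fun j hj => ?_
        have hj' := Finset.mem_of_mem_erase hj
        rcases lt_or_gt_of_ne (Finset.ne_of_mem_erase hj) with h | h
        · have h8 := hSs j hj' i hi h
          have h9 : (j : ℝ) + g ≤ i := by exact_mod_cast h8
          rw [abs_of_nonneg (by linarith)]
          linarith
        · have h8 := hSs i hi j hj' h
          have h9 : (i : ℝ) + g ≤ j := by exact_mod_cast h8
          rw [abs_of_nonpos (by linarith)]
          linarith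
      refine le_trans ?_ h6
      exact le_self_pow₀ hg1.le (by omega)
    exact div_le_div₀ hR.le h4 hgr h5
  rw [Finset.sum_const, hSc, nsmul_eq_mul] at h3
  push_cast at h3
  rw [div_lt_iff₀ hc] at hg2
  have h4 : ((D : ℝ) + 1) * (R / g) < c₀ := by
    rw [mul_div_assoc', div_lt_iff₀ hgr]
    linarith
  linarith

variable {k : ℕ}

/-- evaluation at a point with natural coordinates -/
def ev (P : MvPolynomial (Fin k) ℝ) (n : Fin k → ℕ) : ℝ :=
  MvPolynomial.eval (fun i => (n i : ℝ)) P

theorem prod_update_eval (d : Fin k →₀ ℕ) (n : Fin k → ℕ) (l : Fin k) (t : ℕ) :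
    ∏ i, ((Function.update n l t i : ℕ) : ℝ) ^ d i =
      (∏ i ∈ Finset.univ.erase l, ((n i : ℕ) : ℝ) ^ d i) * (t : ℝ) ^ d l := by
  rw [← Finset.prod_erase_mul Finset.univ _ (Finset.mem_univ l), Function.update_self]
  congr 1
  refine Finset.prod_congr rfl fun i hi => ?_
  rw [Function.update_of_ne (Finset.ne_of_mem_erase hi)]

theorem slice (P : MvPolynomial (Fin k) ℝ) (l : Fin k) (hl : P.degreeOf l ≠ 0) :
    ∃ c : MvPolynomial (Fin k) ℝ, c ≠ 0 ∧ c.totalDegree < P.totalDegree ∧
      ∀ n : Fin k → ℕ, ∃ Q : Polynomial ℝ, Q.natDegree ≤ P.degreeOf l ∧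
        Q.coeff (P.degreeOf l) = ev c n ∧
        ∀ t : ℕ, Q.eval (t : ℝ) = ev P (Function.update n l t) := by
  classical
  set D := P.degreeOf l with hD
  have hle : ∀ m ∈ P.support, m l ≤ D := fun m hm => MvPolynomial.monomial_le_degreeOf l hm
  obtain ⟨m₀, hm₀, hm₀l⟩ : ∃ m ∈ P.support, m l = D := by
    by_contra hcon
    push Not at hcon
    have h1 : P.degreeOf l < D := by
      rw [MvPolynomial.degreeOf_lt_iff (Nat.pos_of_ne_zero hl)]
      exact fun m hm => lt_of_le_of_ne (hle m hm) (hcon m hm)
    omega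
  let c : MvPolynomial (Fin k) ℝ := ∑ m ∈ P.support.filter (fun m => m l = D),
    MvPolynomial.monomial (m.erase l) (P.coeff m)
  refine ⟨c, ?_, ?_, fun n => ?_⟩
  · intro h0
    have h1 : c.coeff (m₀.erase l) = P.coeff m₀ := by
      show (∑ m ∈ P.support.filter (fun m => m l = D),
        MvPolynomial.monomial (m.erase l) (P.coeff m)).coeff (m₀.erase l) = P.coeff m₀
      rw [MvPolynomial.coeff_sum]
      rw [Finset.sum_eq_single_of_mem m₀ (Finset.mem_filter.2 ⟨hm₀, hm₀l⟩)]
      · rw [MvPolynomial.coeff_monomial, if_pos rfl]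
      · intro m hm hne
        rw [MvPolynomial.coeff_monomial, if_neg]
        intro h2
        apply hne
        ext i
        by_cases hi : i = l
        · rw [hi, (Finset.mem_filter.1 hm).2, hm₀l]
        · have h3 := DFunLike.congr_fun h2 i
          rwa [Finsupp.erase_ne hi, Finsupp.erase_ne hi] at h3
    rw [h0, MvPolynomial.coeff_zero] at h1
    exact MvPolynomial.mem_support_iff.1 hm₀ h1.symm
  · have htot : 1 ≤ P.totalDegree := by
      have := MvPolynomial.degreeOf_le_totalDegree P l
      omega
    have h1 : c.totalDegree ≤ P.totalDegree - 1 := by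
      refine MvPolynomial.totalDegree_finsetSum_le fun m hm => ?_
      refine (MvPolynomial.totalDegree_monomial_le _ _).trans ?_
      have h2 := MvPolynomial.le_totalDegree (Finset.mem_filter.1 hm).1
      have h3 : (m.erase l).sum (fun _ => id) + m l = m.sum fun _ e => e := by
        rw [Finsupp.sum_fintype _ _ (fun _ => rfl), Finsupp.sum_fintype _ _ (fun _ => rfl),
          ← Finset.sum_erase_add _ _ (Finset.mem_univ l),
          ← Finset.sum_erase_add Finset.univ (fun i => m i) (Finset.mem_univ l)]
        simp only [id, Finsupp.erase_same, add_zero]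
        congr 1
        refine Finset.sum_congr rfl fun i hi => ?_
        rw [Finsupp.erase_ne (Finset.ne_of_mem_erase hi)]
      have h4 := (Finset.mem_filter.1 hm).2
      omega
    omega
  · refine ⟨∑ m ∈ P.support, Polynomial.C (P.coeff m *
      ∏ i ∈ Finset.univ.erase l, ((n i : ℕ) : ℝ) ^ m i) * Polynomial.X ^ m l, ?_, ?_, ?_⟩
    · refine Polynomial.natDegree_sum_le_of_forall_le _ _ fun m hm => ?_
      exact (Polynomial.natDegree_C_mul_X_pow_le _ _).trans (hle m hm)
    · rw [Polynomial.finsetSum_coeff]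
      show _ = MvPolynomial.eval _ (∑ m ∈ P.support.filter (fun m => m l = D),
        MvPolynomial.monomial (m.erase l) (P.coeff m))
      rw [map_sum, Finset.sum_filter]
      refine Finset.sum_congr rfl fun m hm => ?_
      rw [Polynomial.coeff_C_mul_X_pow]
      by_cases h : m l = D
      · rw [if_pos h.symm, if_pos h, MvPolynomial.eval_monomial,
          Finsupp.prod_fintype _ _ (fun _ => pow_zero _),
          ← Finset.prod_erase_mul Finset.univ _ (Finset.mem_univ l), Finsupp.erase_same,
          pow_zero, mul_one]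
        congr 1
        refine Finset.prod_congr rfl fun i hi => ?_
        rw [Finsupp.erase_ne (Finset.ne_of_mem_erase hi)]
      · rw [if_neg (fun h' => h h'.symm), if_neg h]
    · intro t
      rw [Polynomial.eval_finsetSum]
      unfold ev
      rw [MvPolynomial.eval_eq']
      refine Finset.sum_congr rfl fun m _ => ?_
      rw [Polynomial.eval_mul, Polynomial.eval_C, Polynomial.eval_pow, Polynomial.eval_X,
        prod_update_eval, mul_assoc]

theorem disp_step (P : MvPolynomial (Fin k) ℝ) (l : Fin k) (hl : P.degreeOf l ≠ 0)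
    (ih : ∀ c : MvPolynomial (Fin k) ℝ, c.totalDegree < P.totalDegree → c.totalDegree ≠ 0 →
      ∀ R, DZ {n | |ev c n| < R}) {R : ℝ} (hR : 0 < R) :
    ∃ (L : ℕ) (E : Set (Fin k → ℕ)), DZ E ∧
      ∀ n ∉ E, Mult (fun t => ev P (Function.update n l t)) R L := by
  obtain ⟨c, hc0, hcd, hc⟩ := slice P l hl
  by_cases htot : c.totalDegree = 0
  · rw [MvPolynomial.totalDegree_eq_zero_iff_eq_C] at htot
    set a := c.coeff 0 with ha
    have ha0 : a ≠ 0 := by
      intro h
      rw [h, map_zero] at htot
      exact hc0 htot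
    obtain ⟨L, hL⟩ := mult_poly (P.degreeOf l) (Nat.one_le_iff_ne_zero.2 hl)
      (abs_pos.2 ha0) hR
    refine ⟨L, ∅, DZ.empty, fun n _ => ?_⟩
    obtain ⟨Q, hQ1, hQ2, hQ3⟩ := hc n
    have h1 := hL Q hQ1 (by
      rw [hQ2]
      unfold ev
      rw [htot, MvPolynomial.eval_C])
    intro T s hT
    refine h1 T s fun t ht => ?_
    have h5 : s ≤ ev P (Function.update n l t) ∧ ev P (Function.update n l t) < s + R :=
      hT t ht
    rw [← hQ3] at h5
    exact h5
  · obtain ⟨L, hL⟩ := mult_poly (P.degreeOf l) (Nat.one_le_iff_ne_zero.2 hl)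
      one_pos hR
    refine ⟨L, {n | |ev c n| < 1}, ih c hcd htot 1, fun n hn => ?_⟩
    obtain ⟨Q, hQ1, hQ2, hQ3⟩ := hc n
    have h1 := hL Q hQ1 (by
      rw [hQ2]
      exact not_lt.1 hn)
    intro T s hT
    refine h1 T s fun t ht => ?_
    have h5 : s ≤ ev P (Function.update n l t) ∧ ev P (Function.update n l t) < s + R :=
      hT t ht
    rw [← hQ3] at h5
    exact h5

theorem small_step {a : (Fin k → ℕ) → ℝ} (l : Fin k)
    (h : ∀ R : ℝ, 0 < R → ∃ (L : ℕ) (E : Set (Fin k → ℕ)), DZ E ∧
      ∀ n ∉ E, Mult (fun t => a (Function.update n l t)) R L) (R : ℝ) :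
    DZ {n | |a n| < R} := by
  classical
  rcases le_or_gt R 0 with hR | hR
  · have : {n : Fin k → ℕ | |a n| < R} = ∅ := by
      ext n
      simp only [Set.mem_ofPred_eq, Set.mem_empty_iff_false, iff_false, not_lt]
      exact hR.trans (abs_nonneg _)
    rw [this]
    exact DZ.empty
  · obtain ⟨L, E, hE, hm⟩ := h (2 * R) (by positivity)
    unfold DZ at *
    have h1 : Tendsto (fun N : Fin k → ℕ => (L : ℝ) / (N l : ℝ)) atTop (𝓝 0) := by
      refine Tendsto.div_atTop tendsto_const_nhds ?_
      refine tendsto_natCast_atTop_atTop.comp (tendsto_atTop_atTop.2 fun b => ⟨fun _ => b,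
        fun N hN => hN l⟩)
    have h2 := hE.add h1
    rw [add_zero] at h2
    refine squeeze_zero' (Eventually.of_forall fun N => bx_nonneg fun n => by
      split_ifs <;> norm_num) ?_ h2
    refine eventually_atTop.2 ⟨fun _ => 1, fun N hN => ?_⟩
    have hNl : (0 : ℝ) < N l := by
      have : 1 ≤ N l := hN l
      exact_mod_cast this
    rw [bx_slice hN l]
    have h3 : ∀ n : Fin k → ℕ, (N l : ℝ)⁻¹ * ∑ t ∈ Finset.range (N l),
        (if Function.update n l t ∈ {n | |a n| < R} then (1 : ℝ) else 0) ≤
        (if n ∈ E then (1 : ℝ) else 0) + (L : ℝ) / N l := by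
      intro n
      rw [← Finset.sum_filter, Finset.sum_const, nsmul_eq_mul, mul_one]
      by_cases hn : n ∈ E
      · rw [if_pos hn]
        have h4 : ((((Finset.range (N l)).filter fun t =>
            Function.update n l t ∈ {n | |a n| < R}).card : ℕ) : ℝ) ≤ N l := by
          have := Finset.card_filter_le (Finset.range (N l)) fun t =>
            Function.update n l t ∈ {n | |a n| < R}
          rw [Finset.card_range] at this
          exact_mod_cast this
        have h5 : (N l : ℝ)⁻¹ * ((((Finset.range (N l)).filter fun t =>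
            Function.update n l t ∈ {n | |a n| < R}).card : ℕ) : ℝ) ≤ 1 := by
          calc _ ≤ (N l : ℝ)⁻¹ * N l := mul_le_mul_of_nonneg_left h4 (inv_pos.2 hNl).le
            _ = 1 := inv_mul_cancel₀ hNl.ne'
        have h6 : 0 ≤ (L : ℝ) / N l := by positivity
        linarith
      · rw [if_neg hn, zero_add, div_eq_inv_mul]
        refine mul_le_mul_of_nonneg_left ?_ (inv_pos.2 hNl).le
        have h4 := hm n hn ((Finset.range (N l)).filter fun t =>
          Function.update n l t ∈ {n | |a n| < R}) (-R) (by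
            intro t ht
            have h5 : |a (Function.update n l t)| < R := (Finset.mem_filter.1 ht).2
            rw [abs_lt] at h5
            constructor <;> linarith [h5.1, h5.2])
        exact_mod_cast h4
    refine (bx_mono fun n => h3 n).trans ?_
    rw [bx_add]
    exact add_le_add le_rfl (bx_const_le (by positivity))

/-- a nonconstant real polynomial is small only on a set of density zero -/
theorem dz_small : ∀ (d : ℕ) (P : MvPolynomial (Fin k) ℝ), P.totalDegree ≤ d →
    P.totalDegree ≠ 0 → ∀ R, DZ {n | |ev P n| < R} := by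
  intro d
  induction d with
  | zero =>
    intro P h1 h2
    exact absurd (Nat.le_zero.1 h1) h2
  | succ d ih =>
    intro P h1 h2 R
    obtain ⟨l, hl⟩ : ∃ l, P.degreeOf l ≠ 0 := by
      by_contra hcon
      push Not at hcon
      apply h2
      refine Nat.le_zero.1 (MvPolynomial.totalDegree_le_of_support_subset (R := ℝ)
        (p := P) (q := MvPolynomial.C 1) ?_ |>.trans ?_)
      · intro m hm
        have hm0 : m = 0 := by
          ext i
          have := MvPolynomial.monomial_le_degreeOf i hm
          rw [hcon i] at this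
          exact Nat.le_zero.1 this
        rw [hm0, MvPolynomial.mem_support_iff, MvPolynomial.coeff_C, if_pos rfl]
        exact one_ne_zero
      · rw [MvPolynomial.totalDegree_C]
    refine small_step l (fun R hR => disp_step P l hl (fun c hc hc0 R => ?_) hR) R
    exact ih c (by omega) hc0 R

/-- polynomials that involve each variable are dispersed -/
theorem disp_poly (P : MvPolynomial (Fin k) ℝ) (hP : ∀ l, P.degreeOf l ≠ 0) :
    Disp (ev P) := fun l _ hR =>
  disp_step P l (hP l) (fun c _ hc0 R => dz_small c.totalDegree c le_rfl hc0 R) hR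

theorem sepa_poly (P P' : MvPolynomial (Fin k) ℝ) (h : (P - P').totalDegree ≠ 0) :
    Sepa (ev P) (ev P') := by
  intro R
  have h1 := dz_small (P - P').totalDegree (P - P') le_rfl h R
  have e : {n | |ev P n - ev P' n| < R} = {n | |ev (P - P') n| < R} := by
    ext n
    unfold ev
    rw [Set.mem_ofPred_eq, Set.mem_ofPred_eq, map_sub]
  rw [e]
  exact h1

end Pool.Agent.Run7.h484.KB
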