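import Pool.Agent.Run7.h484.KB.Good
import Pool.Agent.Run7.h484.KB.Poly
import Pool.Agent.W761.Gauss.Main

/-!
# Assembly: essentially bounded functions, polynomial words
-/

set_option autoImplicit false
set_option linter.unusedSectionVars false

open MeasureTheory Filter Topology
open scoped ENNReal

noncomputable section

namespace Pool.Agent.Run7.h484.KB

open Pool.Agent.TH784.KE
open Pool.Agent.W761.Box (bx bxc BM Good1 Cv bxc_mul bxc_add)
open Pool.Agent.W761.Gauss (BM_of_memLp)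

section level

variable {G : Type*} [Group G] {ℓ : G → ℝ}

/-- the value of `ℓ` along a word, as a polynomial -/
def level {d k : ℕ} (ℓ : G → ℝ) (t : Fin d → G) (p : Fin d → MvPolynomial (Fin k) ℤ) :
    MvPolynomial (Fin k) ℝ :=
  ∑ i, MvPolynomial.C (ℓ (t i)) * MvPolynomial.map (Int.castRingHom ℝ) (p i)

theorem ev_map {k : ℕ} (p : MvPolynomial (Fin k) ℤ) (n : Fin k → ℕ) :
    MvPolynomial.eval (fun i => (n i : ℝ)) (MvPolynomial.map (Int.castRingHom ℝ) p) =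
      ((MvPolynomial.eval (fun l => ((n l : ℕ) : ℤ)) p : ℤ) : ℝ) := by
  rw [MvPolynomial.eval_map]
  have h := MvPolynomial.eval₂_comp (Int.castRingHom ℝ) (fun l => ((n l : ℕ) : ℤ)) p
  rw [eq_intCast] at h
  rw [h]
  congr 1

theorem level_word (hℓ : ∀ a b, ℓ (a * b) = ℓ a + ℓ b) {d k : ℕ} (t : Fin d → G)
    (p : Fin d → MvPolynomial (Fin k) ℤ) (n : Fin k → ℕ) :
    ℓ (word t p n) = ev (level ℓ t p) n := by
  have h1 : ℓ 1 = 0 := by
    have := hℓ 1 1
    rw [mul_one] at this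
    linarith
  let χ : G →* Multiplicative ℝ :=
    { toFun := fun g => Multiplicative.ofAdd (ℓ g)
      map_one' := by rw [h1]; rfl
      map_mul' := fun a b => by rw [hℓ]; rfl }
  have h2 := map_word χ t p n
  have h3 : ℓ (word t p n) = Multiplicative.toAdd (χ (word t p n)) := rfl
  rw [h3, h2, toAdd_prod]
  unfold ev level
  rw [map_sum]
  refine Finset.sum_congr rfl fun i _ => ?_
  rw [toAdd_zpow, map_mul, MvPolynomial.eval_C, ev_map, zsmul_eq_mul, mul_comm]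
  rfl

end level

variable {X G : Type} {mA mY mX : MeasurableSpace X} {μ : Measure X} [IsProbabilityMeasure μ]
variable [Group G] {Φ : G →* Equiv.Perm X} {ℓ : G → ℝ}

/-- essentially bounded functions and bounded weights -/
theorem char_top {m k : ℕ} (hk : 0 < k) (hK : KExt μ mA mY Φ ℓ) {s₀ : G} (hs₀ : 0 < ℓ s₀)
    {q : (Fin k → ℕ) → Fin m → G}
    (hdisp : ∀ v, Disp fun n => ℓ (q n v))
    (hsepa : ∀ v w, v ≠ w → Sepa (fun n => ℓ (q n v)) (fun n => ℓ (q n w)))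
    (hgood : ∀ v, Good1 μ fun n => (Φ (q n v) : X → X))
    {W : (Fin k → ℕ) → X → ℂ} (hW : ∀ n, Measurable[mY] (W n))
    (hWb : ∃ C : ℝ, ∀ n x, ‖W n x‖ ≤ C)
    {f : Fin m → X → ℂ} (hf : ∀ j, MemLp (f j) ∞ μ) :
    ∀ᵐ x ∂μ, Tendsto (fun N => bxc k N fun n => (∏ j, f j (Φ (q n j) x) -
      ∏ j, (μ[f j | mY]) (Φ (q n j) x)) * W n x) atTop (𝓝 0) := by
  obtain ⟨C, hC⟩ := hWb
  set D : ℝ := |C| + 1 with hD
  have hD0 : 0 < D := by positivity
  choose g hg hfg using fun j => BM_of_memLp (hf j)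
  choose e he heY hee hfe using fun j =>
    exists_cond (μ := μ) (hK.base.le.trans hK.filt.le) (hg j)
  have hmain := char_gen (W := fun n x => (D : ℂ)⁻¹ * W n x) hk hK hs₀ hdisp hsepa hgood
    (fun n => ⟨(hW n).const_mul _, fun x => by
      rw [norm_mul, norm_inv, Complex.norm_real, Real.norm_of_nonneg hD0.le,
        inv_mul_le_iff₀ hD0, mul_one]
      exact ((hC n x).trans (le_abs_self C)).trans (by rw [hD]; linarith)⟩) hg he heY hfe
  have h1 : ∀ᵐ x ∂μ, ∀ (n : Fin k → ℕ) (j : Fin m), f j (Φ (q n j) x) = g j (Φ (q n j) x) := by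
    rw [ae_all_iff]
    intro n
    rw [ae_all_iff]
    intro j
    exact (hK.fl _).quasiMeasurePreserving.ae (hfg j)
  have h2 : ∀ᵐ x ∂μ, ∀ (n : Fin k → ℕ) (j : Fin m),
      (μ[f j | mY]) (Φ (q n j) x) = e j (Φ (q n j) x) := by
    rw [ae_all_iff]
    intro n
    rw [ae_all_iff]
    intro j
    have h3 : μ[f j | mY] =ᵐ[μ] e j := (condExp_congr_ae (hfg j)).trans (hee j).symm
    exact (hK.fl _).quasiMeasurePreserving.ae h3
  filter_upwards [hmain, h1, h2] with x hx hx1 hx2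
  have h4 := hx.const_mul (D : ℂ)
  rw [mul_zero] at h4
  refine h4.congr fun N => ?_
  rw [← bxc_mul]
  congr 1
  funext n
  have hDc : (D : ℂ) ≠ 0 := by exact_mod_cast hD0.ne'
  rw [Finset.prod_congr rfl fun j _ => hx1 n j, Finset.prod_congr rfl fun j _ => hx2 n j]
  field_simp

/-- bounded measurable functions on a factor with discrete spectrum -/
theorem disc_top {m d k : ℕ} (hk : 0 < k) (hK : KExt μ mA mY Φ ℓ) {s₀ : G} (hs₀ : 0 < ℓ s₀)
    (t : Fin d → G) (P : Fin m → Fin d → MvPolynomial (Fin k) ℤ)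
    (hdisp : ∀ j, Disp fun n => ℓ (word t (P j) n))
    (hsepa : ∀ i j, i ≠ j → Sepa (fun n => ℓ (word t (P i) n)) (fun n => ℓ (word t (P j) n)))
    (hgood : ∀ j, Good1 μ fun n => (Φ (word t (P j) n) : X → X))
    (hdisc : ∀ e : X → ℂ, Measurable[mY] e → (∃ C : ℝ, ∀ x, ‖e x‖ ≤ C) → ∀ ε : ℝ, 0 < ε →
      ∃ (s : ℕ) (c : Fin s → ℂ) (h : Fin s → X → ℂ), (∀ i, Measurable[mY] (h i) ∧
        (∃ C : ℝ, ∀ x, ‖h i x‖ ≤ C) ∧ ∃ χ : G →* Circle, ∀ g, ∀ᵐ x ∂μ,
          h i (Φ g x) = (χ g : ℂ) * h i x) ∧ ∫ x, ‖e x - ∑ i, c i * h i x‖ ∂μ ≤ ε)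
    {f : Fin m → X → ℂ} (hf : ∀ j, MemLp (f j) ∞ μ) :
    ∀ᵐ x ∂μ, ∃ L, Tendsto (fun N => bxc k N fun n => ∏ j, f j (Φ (word t (P j) n) x))
      atTop (𝓝 L) := by
  classical
  have hYX : mY ≤ mX := hK.base.le.trans hK.filt.le
  choose g hg hfg using fun j => BM_of_memLp (hf j)
  choose e he heY hee hfe using fun j => exists_cond (μ := μ) hYX (hg j)
  have hmain := char_gen (q := fun n j => word t (P j) n) (W := fun _ _ => 1) hk hK hs₀ hdisp
    hsepa hgood (fun n => ⟨measurable_const, fun x => by rw [norm_one]⟩) hg he heY hfe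
  have hbase : Cv μ (fun j n => (Φ (word t (P j) n) : X → X)) e := by
    refine Cv_dense (𝓔 := {h | BM h ∧ ∃ χ : G →* Circle, ∀ g, ∀ᵐ x ∂μ,
      h (Φ g x) = (χ g : ℂ) * h x}) (fun j n => hK.fl _) hgood (fun f hf => hf.1) ?_ ?_
    · intro F hF
      choose χ hχ using fun j => (hF j).2
      exact eig_conv t P hχ
    · intro j
      refine ⟨he j, fun ε hε => ?_⟩
      obtain ⟨s, c, h, hh, hle⟩ := hdisc (e j) (heY j) (he j).2 ε hε
      exact ⟨s, c, h, fun i => ⟨⟨(hh i).1.mono hYX le_rfl, (hh i).2.1⟩, (hh i).2.2⟩, hle⟩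
  have h1 : ∀ᵐ x ∂μ, ∀ (n : Fin k → ℕ) (j : Fin m),
      f j (Φ (word t (P j) n) x) = g j (Φ (word t (P j) n) x) := by
    rw [ae_all_iff]
    intro n
    rw [ae_all_iff]
    intro j
    exact (hK.fl _).quasiMeasurePreserving.ae (hfg j)
  filter_upwards [hmain, hbase, h1] with x hx hxb hx1
  obtain ⟨L, hL⟩ := hxb
  have h4 := hx.add hL
  refine ⟨_, h4.congr fun N => ?_⟩
  rw [← bxc_add]
  congr 1
  funext n
  rw [mul_one, Finset.prod_congr rfl fun j _ => hx1 n j]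
  ring

theorem exists_pos (hK : KExt μ mA mY Φ ℓ) {d k : ℕ} {t : Fin d → G}
    {p : Fin d → MvPolynomial (Fin k) ℤ} {l : Fin k}
    (h : (level ℓ t p).degreeOf l ≠ 0) : ∃ s₀ : G, 0 < ℓ s₀ := by
  have h1 : ∃ i, ℓ (t i) ≠ 0 := by
    by_contra hcon
    push Not at hcon
    apply h
    have : level ℓ t p = 0 := by
      unfold level
      refine Finset.sum_eq_zero fun i _ => ?_
      rw [hcon i, MvPolynomial.C_0, zero_mul]
    rw [this, MvPolynomial.degreeOf_zero]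
  obtain ⟨i, hi⟩ := h1
  rcases lt_or_gt_of_ne hi with h2 | h2
  · exact ⟨(t i)⁻¹, by rw [hK.filt.inv]; linarith⟩
  · exact ⟨t i, h2⟩

end Pool.Agent.Run7.h484.KB
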