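import Pool.Agent.Run7.h484.KB.Disc
import Pool.Agent.TH739.PB.Box

/-!
# Single averages for exponents of degree one
-/

set_option autoImplicit false

open MeasureTheory Filter Topology

noncomputable section

namespace Pool.Agent.Run7.h484.KB

open Pool.Agent.W761.Box (bx bxc BM Good1 dz orb good1 prod_zpow_add eval_affine)
open Pool.Agent.TH739.PB (lin orb_lin)

variable {X G : Type} [Group G] [MeasurableSpace X] {μ : Measure X} [IsProbabilityMeasure μ]
  {Φ : G →* Equiv.Perm X}

theorem good_lin (hΦ : ∀ g, MeasurePreserving (Φ g) μ μ) {k : ℕ} (w : G) (u : Fin k → G) :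
    Good1 μ (fun n : Fin k → ℕ => (Φ (w * (List.ofFn fun l => u l ^ n l).prod) : X → X)) := by
  intro F hF ⟨C, hC⟩
  have h := dz k (fun l => (Φ (u l) : X → X)) (fun l => hΦ _) (fun x => F (Φ w x))
    (hF.comp (hΦ w).measurable) C fun x => hC _
  filter_upwards [h] with x hx
  obtain ⟨L, hL⟩ := hx
  refine ⟨L, hL.congr fun N => ?_⟩
  congr 1
  funext n
  rw [orb_lin, map_mul, Equiv.Perm.mul_apply]
  rfl

theorem good_comm (hΦ : ∀ g, MeasurePreserving (Φ g) μ μ) {d k : ℕ} (t : Fin d → G)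
    (hc : ∀ i i', Commute (t i) (t i')) (p : Fin d → MvPolynomial (Fin k) ℤ)
    (hp : ∀ i, (p i).totalDegree ≤ 1) :
    Good1 μ (fun n : Fin k → ℕ => (Φ (word t p n) : X → X)) := by
  let Φ' : (Fin d → ℤ) → Equiv.Perm X := fun a => Φ (List.ofFn fun i => t i ^ a i).prod
  have hΦ1 : ∀ a b, Φ' (a + b) = Φ' a * Φ' b := fun a b => by
    show Φ (List.ofFn fun i => t i ^ ((a + b) i)).prod = _
    rw [prod_zpow_add t hc a b, map_mul]
  have hΦ0 : Φ' 0 = 1 := by
    show Φ (List.ofFn fun i => t i ^ ((0 : Fin d → ℤ) i)).prod = 1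
    simp
  have h1 := good1 (μ := μ) hΦ1 hΦ0 (fun b => hΦ _)
    (fun i => MvPolynomial.coeff 0 (p i))
    (fun (l : Fin k) (i : Fin d) => MvPolynomial.coeff (Finsupp.single l 1) (p i))
  have e : (fun m : Fin k → ℕ => (Φ' ((fun i => MvPolynomial.coeff 0 (p i)) +
      ∑ l, m l • fun (i : Fin d) => MvPolynomial.coeff (Finsupp.single l 1) (p i)) :
        X → X)) = fun m => (Φ (word t p m) : X → X) := by
    funext m
    show (Φ (List.ofFn fun i => t i ^ (((fun i => MvPolynomial.coeff 0 (p i)) +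
      ∑ l, m l • fun (i : Fin d) => MvPolynomial.coeff (Finsupp.single l 1) (p i)) i)).prod :
        X → X) = _
    unfold word
    congr 5
    funext i
    rw [eval_affine _ (hp i), Pi.add_apply, Finset.sum_apply]
    congr 2
  rw [e] at h1
  exact h1

end Pool.Agent.Run7.h484.KB
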