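import Pool.Agent.TH784.KE.BoxK

/-!
# Sums along lines of general positions
-/

set_option autoImplicit false
set_option linter.unusedSectionVars false

open MeasureTheory Filter Topology

noncomputable section

namespace Pool.Agent.Run7.h484.KB

open Pool.Agent.TH784.KE
open Pool.Agent.TH784.AA (bxs mem_bxs vol vol_pos vol_nonneg card_bxs sum_fiber bxs_mono)

/-- a half-open interval of length `R` contains at most `L` terms of the sequence -/
def Mult (a : ℕ → ℝ) (R : ℝ) (L : ℕ) : Prop :=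
  ∀ (T : Finset ℕ) (s : ℝ), (∀ t ∈ T, s ≤ a t ∧ a t < s + R) → T.card ≤ L

theorem Mult.mono {a : ℕ → ℝ} {R : ℝ} {L L' : ℕ} (h : Mult a R L) (hL : L ≤ L') : Mult a R L' :=
  fun T s hT => (h T s hT).trans hL

variable {X : Type*} {mA mY mX : MeasurableSpace X} {μ : Measure X} [IsProbabilityMeasure μ]
variable {G : Type*} [Group G]
variable {Φ : G →* Equiv.Perm X} {ℓ : G → ℝ}
variable {J : Type*} [DecidableEq J]

theorem orth_gen (hFl : Flow μ Φ) (hA : Filt mX mA Φ ℓ) (hY : Base mY mA Φ) {V : Finset J}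
    {v : J} (hv : v ∈ V) {p : ℕ → J → G}
    {F H : J → X → ℝ} {W : ℕ → X → ℝ} {r s : G} {R : ℝ}
    (hsr : ℓ s ≤ ℓ r) (hR : ℓ r - ℓ s ≤ R) (hR0 : 0 ≤ R)
    (hF : ∀ w ∈ V, Measurable[cm mA Φ r] (F w) ∧ ∀ x, |F w x| ≤ 1)
    (hH : CE μ (cm mA Φ s) (F v) (H v)) (hW : ∀ m, Measurable[mY] (W m) ∧ ∀ x, |W m x| ≤ 1)
    (rk : ℕ → ℤ) (M : Finset ℕ)
    (hsepn : ∀ i ∈ M, ∀ j ∈ M, rk j < rk i → ℓ (p j v) + R ≤ ℓ (p i v)) :
    Orth μ rk M fun m x => DD V Φ ℓ R F H (W m) (p m) v x / 2 := by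
  classical
  intro i hi M' hM' hlt c
  by_cases htop : top V ℓ R (p i) v
  swap
  · have e : ∀ x, DD V Φ ℓ R F H (W i) (p i) v x = 0 := by
      intro x
      unfold DD
      rw [if_neg htop]
    simp only [e, zero_div, zero_mul, integral_zero]
  set t : G := s * p i v with ht
  have hpast : ∀ j ∈ M', Measurable[cm mA Φ t]
      (DD V Φ ℓ R F H (W j) (p j) v) := by
    intro j hj
    refine DD_past hA hY hv hsr hR0 (fun w hw => (hF w hw).1) hH.1 (hW j).1 ?_
    have h1 := hsepn i hi j (hM' hj) (hlt j hj)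
    rw [ht, hA.hom]
    linarith
  have hexp : Measurable[cm mA Φ t] fun x => Real.exp (c * ∑ j ∈ M',
      DD V Φ ℓ R F H (W j) (p j) v x / 2) := by
    have h1 : Measurable[cm mA Φ t] fun x => ∑ j ∈ M',
        DD V Φ ℓ R F H (W j) (p j) v x / 2 :=
      Finset.measurable_fun_sum _ fun j hj => (hpast j hj).div_const 2
    exact (h1.const_mul c).exp
  have hprod : Measurable[cm mA Φ t] fun x => ∏ w ∈ V.erase v, F w (Φ (p i w) x) := by
    refine Finset.measurable_fun_prod _ fun w hw => ?_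
    refine (meas_shift _ (hF w (Finset.mem_of_mem_erase hw)).1).mono
      (cm_mono hA ?_) le_rfl
    have h9 : ℓ (p i w) + R ≤ ℓ (p i v) :=
      htop w (Finset.mem_of_mem_erase hw) (Finset.ne_of_mem_erase hw)
    rw [ht, hA.hom, hA.hom]
    linarith
  have hWm : Measurable[cm mA Φ t] (W i) := (hW i).1.mono (base_le hY t) le_rfl
  have hfm : Measurable (F v) := (hF v hv).1.mono (cm_le hFl hA r) le_rfl
  have hb : ∀ x, |((∏ w ∈ V.erase v, F w (Φ (p i w) x)) * W i x) *
      Real.exp (c * ∑ j ∈ M', DD V Φ ℓ R F H (W j) (p j) v x / 2)| ≤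
      1 * Real.exp (|c| * M'.card) := by
    intro x
    rw [abs_mul, abs_mul, abs_of_pos (Real.exp_pos _)]
    have h2 := prod_abs_le (Φ := Φ) (V := V.erase v) (F := F)
      (fun w hw => (hF w (Finset.mem_of_mem_erase hw)).2) (p i) x
    have h3 := (hW i).2 x
    have h4 : |∏ w ∈ V.erase v, F w (Φ (p i w) x)| * |W i x| ≤ 1 := by
      calc _ ≤ (1 : ℝ) * 1 := mul_le_mul h2 h3 (abs_nonneg _) zero_le_one
        _ = 1 := one_mul 1
    refine mul_le_mul h4 ?_ (Real.exp_pos _).le zero_le_one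
    apply Real.exp_le_exp.2
    refine (le_abs_self _).trans ?_
    rw [abs_mul]
    refine mul_le_mul_of_nonneg_left ?_ (abs_nonneg _)
    refine (Finset.abs_sum_le_sum_abs _ _).trans ?_
    refine (Finset.sum_le_sum (g := fun _ => (1 : ℝ)) fun j hj => ?_).trans (by simp)
    rw [abs_div, abs_two]
    have := DD_abs (Φ := Φ) (ℓ := ℓ) (R := R) hv (fun w hw => (hF w hw).2) hH.2.1 (hW j).2
      (p j) x
    linarith
  have key := orth_shift hFl hA hfm hH (p i v) ((hprod.mul hWm).mul hexp) hb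
  have e : ∀ x, DD V Φ ℓ R F H (W i) (p i) v x / 2 *
      Real.exp (c * ∑ j ∈ M', DD V Φ ℓ R F H (W j) (p j) v x / 2) =
      2⁻¹ * ((F v (Φ (p i v) x) - H v (Φ (p i v) x)) *
        ((((∏ w ∈ V.erase v, F w (Φ (p i w) x)) * W i x)) *
        Real.exp (c * ∑ j ∈ M', DD V Φ ℓ R F H (W j) (p j) v x / 2))) := by
    intro x
    conv_lhs =>
      enter [1, 1]
      unfold DD
    rw [if_pos htop]
    ring
  simp only [e]
  rw [integral_const_mul]
  refine mul_eq_zero_of_right _ ?_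
  exact key

/-- a rearrangement of `0, …, N - 1` along which the positions are nondecreasing -/
theorem exists_sort (a : ℕ → ℝ) (N : ℕ) : ∃ σ : ℕ → ℕ,
    Set.InjOn σ (Finset.range N : Set ℕ) ∧ (Finset.range N).image σ = Finset.range N ∧
      ∀ i j, i ≤ j → j < N → a (σ i) ≤ a (σ j) := by
  classical
  let f : Fin N → ℝ := fun i => a i
  let τ : Equiv.Perm (Fin N) := Tuple.sort f
  have hτ : Monotone (f ∘ τ) := Tuple.monotone_sort f
  let σ : ℕ → ℕ := fun i => if h : i < N then (τ ⟨i, h⟩ : Fin N) else i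
  have hσ : ∀ i (h : i < N), σ i = (τ ⟨i, h⟩ : Fin N) := fun i h => dif_pos h
  have hinj : Set.InjOn σ (Finset.range N : Set ℕ) := by
    intro i hi j hj hij
    have hi' : i < N := Finset.mem_range.1 hi
    have hj' : j < N := Finset.mem_range.1 hj
    rw [hσ i hi', hσ j hj'] at hij
    have h1 := τ.injective (Fin.ext hij)
    exact congrArg Fin.val h1
  refine ⟨σ, hinj, ?_, ?_⟩
  · apply Finset.eq_of_subset_of_card_le
    · intro m hm
      obtain ⟨i, hi, rfl⟩ := Finset.mem_image.1 hm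
      rw [hσ i (Finset.mem_range.1 hi)]
      exact Finset.mem_range.2 (τ _).2
    · rw [Finset.card_image_of_injOn hinj]
  · intro i j hij hj
    rw [hσ i (hij.trans_lt hj), hσ j hj]
    exact hτ (show (⟨i, hij.trans_lt hj⟩ : Fin N) ≤ ⟨j, hj⟩ from hij)

theorem line_bound_gen (hFl : Flow μ Φ) (hA : Filt mX mA Φ ℓ) (hY : Base mY mA Φ) {V : Finset J}
    {v : J} (hv : v ∈ V) {p : ℕ → J → G}
    {F H : J → X → ℝ} {W : ℕ → X → ℝ} {r s : G} {R : ℝ}
    (hsr : ℓ s ≤ ℓ r) (hR : ℓ r - ℓ s ≤ R) (hR0 : 0 ≤ R)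
    (hF : ∀ w ∈ V, Measurable[cm mA Φ r] (F w) ∧ ∀ x, |F w x| ≤ 1)
    (hH : CE μ (cm mA Φ s) (F v) (H v)) (hW : ∀ m, Measurable[mY] (W m) ∧ ∀ x, |W m x| ≤ 1)
    {L : ℕ} (hL : 0 < L) {N : ℕ} (hN : 0 < N) (hmult : Mult (fun m => ℓ (p m v)) R L)
    {t : ℝ} (ht : 0 ≤ t) :
    μ.real {x | t ≤ |∑ m ∈ Finset.range N,
      DD V Φ ℓ R F H (W m) (p m) v x|} ≤
      L * (2 * Real.exp (-((t / (2 * L)) ^ 2 / (2 * N)))) := by
  classical
  have hL' : (0 : ℝ) < L := by exact_mod_cast hL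
  obtain ⟨σ, hinj, himg, hmon⟩ := exists_sort (fun m => ℓ (p m v)) N
  have hsum : ∀ x, ∑ m ∈ Finset.range N, DD V Φ ℓ R F H (W m) (p m) v x =
      ∑ i ∈ Finset.range N, DD V Φ ℓ R F H (W (σ i)) (p (σ i)) v x := by
    intro x
    conv_lhs => rw [← himg]
    rw [Finset.sum_image hinj]
  have hmeas : ∀ m, Measurable (DD V Φ ℓ R F H (W (σ m)) (p (σ m)) v) := fun m =>
    (DD_past hA hY hv hsr hR0 (fun w hw => (hF w hw).1) hH.1 (hW (σ m)).1
      (t := r * p (σ m) v) (hA.hom _ _).ge).mono (cm_le hFl hA _) le_rfl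
  have hgap : ∀ i j : ℕ, i < N → j + L ≤ i → ℓ (p (σ j) v) + R ≤ ℓ (p (σ i) v) := by
    intro i j hi hji
    by_contra hcon
    rw [not_le] at hcon
    have h1 := hmult ((Finset.Icc j i).image σ) (ℓ (p (σ j) v)) (by
      intro m hm
      obtain ⟨i', hi', rfl⟩ := Finset.mem_image.1 hm
      rw [Finset.mem_Icc] at hi'
      have h2 := hmon j i' hi'.1 (by omega)
      have h3 := hmon i' i hi'.2 hi
      exact ⟨h2, lt_of_le_of_lt h3 hcon⟩)
    rw [Finset.card_image_of_injOn, Nat.card_Icc] at h1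
    · omega
    · intro a ha b hb hab
      rw [Finset.coe_Icc, Set.mem_Icc] at ha hb
      exact hinj (Finset.mem_coe.2 (Finset.mem_range.2 (by omega)))
        (Finset.mem_coe.2 (Finset.mem_range.2 (by omega))) hab
  have key : ∀ ρ ∈ Finset.range L, μ.real {x | t / (2 * L) ≤
      |∑ m ∈ (Finset.range N).filter (fun m => m % L = ρ),
        DD V Φ ℓ R F H (W (σ m)) (p (σ m)) v x / 2|} ≤
      2 * Real.exp (-((t / (2 * L)) ^ 2 / (2 * N))) := by
    intro ρ _
    have hcard : ((Finset.range N).filter (fun m => m % L = ρ)).card ≤ N :=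
      (Finset.card_filter_le _ _).trans (Finset.card_range N).le
    have hb : ∀ m ∈ (Finset.range N).filter (fun m => m % L = ρ), ∀ x,
        |DD V Φ ℓ R F H (W (σ m)) (p (σ m)) v x / 2| ≤ 1 := by
      intro m _ x
      rw [abs_div, abs_two]
      have := DD_abs (Φ := Φ) (ℓ := ℓ) (R := R) hv (fun w hw => (hF w hw).2) hH.2.1 (hW (σ m)).2
        (p (σ m)) x
      linarith
    have hmm : ∀ m ∈ (Finset.range N).filter (fun m => m % L = ρ), Measurable fun x =>
        DD V Φ ℓ R F H (W (σ m)) (p (σ m)) v x / 2 :=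
      fun m _ => (hmeas m).div_const 2
    have hmod : ∀ i j : ℕ, j < i → i % L = j % L → j + L ≤ i := by
      intro i j hij h
      have h1 : L ∣ i - j := (Nat.modEq_iff_dvd' hij.le).1 h.symm
      have h2 := Nat.le_of_dvd (Nat.sub_pos_of_lt hij) h1
      omega
    refine azuma (rk := fun m : ℕ => (m : ℤ)) Nat.cast_injective _ hmm hb ?_
      (div_nonneg ht (by positivity)) hN hcard
    refine orth_gen (p := fun m => p (σ m)) (W := fun m => W (σ m)) hFl hA hY hv hsr hR hR0 hF hH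
      (fun m => hW _) _ _ ?_
    intro i hi j hj hij
    rw [Finset.mem_filter, Finset.mem_range] at hi hj
    have hij' : j < i := by exact_mod_cast hij
    exact hgap i j hi.1 (hmod i j hij' (hi.2.trans hj.2.symm))
  have hsub : {x | t ≤ |∑ m ∈ Finset.range N,
      DD V Φ ℓ R F H (W m) (p m) v x|} ⊆
      ⋃ ρ ∈ Finset.range L, {x | t / (2 * L) ≤
      |∑ m ∈ (Finset.range N).filter (fun m => m % L = ρ),
        DD V Φ ℓ R F H (W (σ m)) (p (σ m)) v x / 2|} := by
    intro x hx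
    by_contra hcon
    simp only [Set.mem_iUnion, Set.mem_ofPred_eq, not_exists, not_le] at hcon
    have h1 : ∑ m ∈ Finset.range N, DD V Φ ℓ R F H (W m) (p m) v x =
        2 * ∑ ρ ∈ Finset.range L, ∑ m ∈ (Finset.range N).filter (fun m => m % L = ρ),
          DD V Φ ℓ R F H (W (σ m)) (p (σ m)) v x / 2 := by
      rw [hsum, Finset.sum_fiberwise_of_maps_to (s := Finset.range N) (t := Finset.range L)
        (g := fun m => m % L) (fun m _ => Finset.mem_range.2 (Nat.mod_lt _ hL)), Finset.mul_sum]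
      refine Finset.sum_congr rfl fun m _ => ?_
      ring
    have h2 : |∑ m ∈ Finset.range N, DD V Φ ℓ R F H (W m) (p m) v x| < t := by
      rw [h1, abs_mul, abs_two]
      have h3 : |∑ ρ ∈ Finset.range L, ∑ m ∈ (Finset.range N).filter (fun m => m % L = ρ),
          DD V Φ ℓ R F H (W (σ m)) (p (σ m)) v x / 2| < L * (t / (2 * L)) := by
        refine (Finset.abs_sum_le_sum_abs _ _).trans_lt ?_
        refine (Finset.sum_lt_sum_of_nonempty ⟨0, Finset.mem_range.2 hL⟩
          fun ρ hρ => hcon ρ hρ).trans_le ?_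
        rw [Finset.sum_const, Finset.card_range, nsmul_eq_mul]
      calc 2 * _ < 2 * (L * (t / (2 * L))) := by linarith
        _ = t := by field_simp
    exact absurd hx (not_le.2 h2)
  refine (measureReal_mono hsub (measure_ne_top _ _)).trans
    ((measureReal_biUnion_finset_le _ _).trans ?_)
  refine (Finset.sum_le_sum key).trans ?_
  rw [Finset.sum_const, Finset.card_range, nsmul_eq_mul]

/-- sums along the good lines of a cube -/
theorem lines_gen {k : ℕ} (hFl : Flow μ Φ) (hA : Filt mX mA Φ ℓ) (hY : Base mY mA Φ)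
    {V : Finset J} {q : (Fin k → ℕ) → J → G} (l : Fin k)
    {F H : J → X → ℝ} {W : (Fin k → ℕ) → X → ℝ} {r s : G} {R : ℝ}
    (hsr : ℓ s ≤ ℓ r) (hR : ℓ r - ℓ s ≤ R) (hR0 : 0 ≤ R)
    (hF : ∀ w ∈ V, Measurable[cm mA Φ r] (F w) ∧ ∀ x, |F w x| ≤ 1)
    (hH : ∀ v ∈ V, CE μ (cm mA Φ s) (F v) (H v))
    (hW : ∀ n, Measurable[mY] (W n) ∧ ∀ x, |W n x| ≤ 1)
    {L : ℕ} (hL : 0 < L) (E : Set (Fin k → ℕ))
    (hE : ∀ n ∉ E, ∀ v ∈ V, Mult (fun t => ℓ (q (Function.update n l t) v)) R L)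
    {η : ℝ} (hη : 0 < η) :
    ∀ᵐ x ∂μ, ∀ᶠ M : ℕ in atTop, ∀ n ∈ bxs (fun _ : Fin k => M), n ∉ E →
      |∑ t ∈ Finset.range M, ∑ v ∈ V, DD V Φ ℓ R F H (W (Function.update n l t))
        (q (Function.update n l t)) v x| ≤ η * M := by
  classical
  set η' : ℝ := η / (V.card + 1) with hη'
  have hη'0 : 0 < η' := by positivity
  set κ : ℝ := (η' / (2 * L)) ^ 2 / 2 with hκ
  have hL' : (0 : ℝ) < L := by exact_mod_cast hL
  have hκ0 : 0 < κ := by positivity
  let bad : ℕ → Set X := fun M => ⋃ n ∈ (bxs (fun _ : Fin k => M)).filter (fun n => n ∉ E),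
    ⋃ v ∈ V, {x | η' * M ≤ |∑ t ∈ Finset.range M, DD V Φ ℓ R F H (W (Function.update n l t))
      (q (Function.update n l t)) v x|}
  have hbad : ∀ M : ℕ, 0 < M → μ.real (bad M) ≤
      ((M : ℝ) ^ k * Real.exp (-κ) ^ M) * (V.card * (L * 2)) := by
    intro M hM
    have hM' : (0 : ℝ) < M := by exact_mod_cast hM
    refine (measureReal_biUnion_finset_le _ _).trans ?_
    have h1 : ∀ n ∈ (bxs (fun _ : Fin k => M)).filter (fun n => n ∉ E), μ.real (⋃ v ∈ V,
        {x | η' * M ≤ |∑ t ∈ Finset.range M, DD V Φ ℓ R F H (W (Function.update n l t))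
          (q (Function.update n l t)) v x|}) ≤
        V.card * (L * (2 * Real.exp (-κ) ^ M)) := by
      intro n hn
      refine (measureReal_biUnion_finset_le _ _).trans ?_
      rw [← nsmul_eq_mul, ← Finset.sum_const]
      refine Finset.sum_le_sum fun v hv => ?_
      have h2 := line_bound_gen hFl hA hY hv (p := fun m => q (Function.update n l m))
        (W := fun t => W (Function.update n l t)) hsr hR hR0 hF (hH v hv)
        (fun t => hW _) hL hM (hE n (Finset.mem_filter.1 hn).2 v hv) (t := η' * M)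
        (by positivity)
      refine h2.trans (le_of_eq ?_)
      congr 2
      rw [← Real.exp_nat_mul]
      congr 1
      rw [hκ]
      field_simp
    refine (Finset.sum_le_sum h1).trans ?_
    rw [Finset.sum_const, nsmul_eq_mul]
    have h3 : (((bxs (fun _ : Fin k => M)).filter (fun n => n ∉ E)).card : ℝ) ≤ (M : ℝ) ^ k := by
      have h4 : ((bxs (fun _ : Fin k => M)).card : ℝ) = (M : ℝ) ^ k := by
        rw [card_bxs]
        unfold vol
        rw [Finset.prod_const, Finset.card_univ, Fintype.card_fin]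
      rw [← h4]
      exact_mod_cast Finset.card_filter_le _ _
    refine (mul_le_mul_of_nonneg_right h3 (by positivity)).trans (le_of_eq ?_)
    ring
  have hsummable : Summable fun M : ℕ => ((M : ℝ) ^ k * Real.exp (-κ) ^ M) *
      (V.card * (L * 2)) := by
    refine Summable.mul_right _ ?_
    refine summable_pow_mul_geometric_of_norm_lt_one k ?_
    rw [Real.norm_eq_abs, abs_of_pos (Real.exp_pos _), Real.exp_lt_one_iff]
    linarith
  have hfin : ∑' M, μ (bad (M + 1)) ≠ ⊤ := by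
    have h3 : ∀ M, μ (bad (M + 1)) ≤ ENNReal.ofReal ((((M + 1 : ℕ) : ℝ) ^ k *
        Real.exp (-κ) ^ (M + 1)) * (V.card * (L * 2))) := by
      intro M
      have h4 := hbad (M + 1) M.succ_pos
      rw [measureReal_def] at h4
      rw [← ENNReal.ofReal_toReal (measure_ne_top μ (bad (M + 1)))]
      exact ENNReal.ofReal_le_ofReal h4
    refine ne_top_of_le_ne_top ?_ (ENNReal.tsum_le_tsum h3)
    exact ((summable_nat_add_iff 1).2 hsummable).tsum_ofReal_ne_top
  filter_upwards [ae_eventually_notMem hfin] with x hx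
  obtain ⟨M₀, hM₀⟩ := eventually_atTop.1 hx
  refine eventually_atTop.2 ⟨M₀ + 1, fun M' hM' => ?_⟩
  obtain ⟨M, rfl⟩ : ∃ M, M' = M + 1 := ⟨M' - 1, by omega⟩
  have hM := hM₀ M (by omega)
  intro n hn hnE
  by_contra hcon
  rw [not_le] at hcon
  apply hM
  have h5 : ∃ v ∈ V, η' * ((M + 1 : ℕ) : ℝ) ≤ |∑ t ∈ Finset.range (M + 1),
      DD V Φ ℓ R F H (W (Function.update n l t)) (q (Function.update n l t)) v x| := by
    by_contra hcon2
    push Not at hcon2
    rw [Finset.sum_comm] at hcon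
    have h6 := Finset.abs_sum_le_sum_abs (fun v => ∑ t ∈ Finset.range (M + 1),
      DD V Φ ℓ R F H (W (Function.update n l t)) (q (Function.update n l t)) v x) V
    have h7 : ∑ v ∈ V, |∑ t ∈ Finset.range (M + 1),
        DD V Φ ℓ R F H (W (Function.update n l t)) (q (Function.update n l t)) v x| ≤
        V.card * (η' * ((M + 1 : ℕ) : ℝ)) := by
      rw [← nsmul_eq_mul, ← Finset.sum_const]
      exact Finset.sum_le_sum fun v hv => (hcon2 v hv).le
    have h8 : (V.card : ℝ) * (η' * ((M + 1 : ℕ) : ℝ)) ≤ η * ((M + 1 : ℕ) : ℝ) := by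
      rw [← mul_assoc]
      refine mul_le_mul_of_nonneg_right ?_ (by positivity)
      rw [hη', mul_div_assoc', div_le_iff₀ (by positivity)]
      nlinarith
    linarith
  obtain ⟨v, hv, hle⟩ := h5
  exact Set.mem_biUnion (Finset.mem_coe.2 (Finset.mem_filter.2 ⟨hn, hnE⟩))
    (Set.mem_biUnion hv hle)

end Pool.Agent.Run7.h484.KB
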