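import Pool.Agent.Run7.h484.KB.Zero
import Pool.Agent.TH784.KE.Multi
import Pool.Agent.TH784.KE.One

/-!
# Complex valued functions and weights: convergence to zero
-/

set_option autoImplicit false
set_option linter.unusedSectionVars false

open MeasureTheory Filter Topology
open scoped ENNReal

noncomputable section

namespace Pool.Agent.Run7.h484.KB

open Pool.Agent.TH784.KE
open Pool.Agent.W761.Box (bx bxc BM Good1 good1 prod_update bxc_add bxc_sub bxc_mul bxc_norm
  bx_mono bx_mul int_lim_le')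

section cw

variable {X : Type*} [MeasurableSpace X] {J : Type*} [Fintype J] [DecidableEq J] {k : ℕ}

/-- convergence to zero of weighted averages -/
def Cw (μ : Measure X) (g : J → (Fin k → ℕ) → X → X) (W : (Fin k → ℕ) → X → ℂ)
    (F : J → X → ℂ) : Prop :=
  ∀ᵐ x ∂μ, Tendsto (fun N => bxc k N fun m => (∏ j, F j (g j m x)) * W m x) atTop (𝓝 0)

theorem Cw_add {μ : Measure X} {g : J → (Fin k → ℕ) → X → X} {W : (Fin k → ℕ) → X → ℂ}
    {F : J → X → ℂ} {j : J} {f f' : X → ℂ}
    (hf : Cw μ g W (Function.update F j f)) (hg : Cw μ g W (Function.update F j f')) :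
    Cw μ g W (Function.update F j (f + f')) := by
  filter_upwards [hf, hg] with x hx hx'
  have h := hx.add hx'
  rw [add_zero] at h
  refine h.congr fun N => ?_
  rw [← bxc_add]
  congr 1
  funext n
  rw [prod_update, prod_update, prod_update, Pi.add_apply, add_mul, add_mul]

theorem Cw_smul {μ : Measure X} {g : J → (Fin k → ℕ) → X → X} {W : (Fin k → ℕ) → X → ℂ}
    {F : J → X → ℂ} {j : J} {f : X → ℂ} (c : ℂ) (hf : Cw μ g W (Function.update F j f)) :
    Cw μ g W (Function.update F j (c • f)) := by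
  filter_upwards [hf] with x hx
  have h := hx.const_mul c
  rw [mul_zero] at h
  refine h.congr fun N => ?_
  rw [← bxc_mul]
  congr 1
  funext n
  rw [prod_update, prod_update, Pi.smul_apply, smul_eq_mul, mul_assoc, mul_assoc, mul_assoc]

theorem Cw_closed {μ : Measure X} [IsProbabilityMeasure μ] {g : J → (Fin k → ℕ) → X → X}
    {W : (Fin k → ℕ) → X → ℂ} (hW : ∀ n x, ‖W n x‖ ≤ 1)
    (hg : ∀ j m, MeasurePreserving (g j m) μ μ) (hgood : ∀ j, Good1 μ (g j))
    {F : J → X → ℂ} (hF : ∀ l, BM (F l)) {j : J} {f : X → ℂ} (hf : BM f)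
    (h : ∀ ε : ℝ, 0 < ε → ∃ f' : X → ℂ, BM f' ∧ ∫ x, ‖f x - f' x‖ ∂μ ≤ ε ∧
      Cw μ g W (Function.update F j f')) :
    Cw μ g W (Function.update F j f) := by
  obtain ⟨hfm, Cf, hCf⟩ := hf
  choose hFm CF hCF using hF
  set D : ℝ := ∏ l ∈ Finset.univ.erase j, (|CF l| + 1) with hD
  have hD0 : 0 < D := Finset.prod_pos fun l _ => by positivity
  have hDb : ∀ (m : Fin k → ℕ) (x : X),
      ‖∏ l ∈ Finset.univ.erase j, F l (g l m x)‖ ≤ D := by
    intro m x
    rw [norm_prod]
    apply Finset.prod_le_prod (fun l _ => norm_nonneg _)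
    intro l _
    exact ((hCF l _).trans (le_abs_self _)).trans (by linarith)
  set G := Function.update F j f with hG
  let Av : (J → X → ℂ) → (Fin k → ℕ) → X → ℂ :=
    fun E N x => bxc k N (fun m => (∏ l, E l (g l m x)) * W m x)
  have hbad : ∀ δ : ℝ, 0 < δ → ∀ᵐ x ∂μ, ∀ᶠ N in atTop, ‖Av G N x‖ ≤ δ := by
    intro δ hδ
    rw [ae_iff, ← nonpos_iff_eq_zero]
    apply ENNReal.le_of_forall_pos_le_add
    intro ε hε _
    rw [zero_add]
    have hε' : (0 : ℝ) < ε := by exact_mod_cast hε
    obtain ⟨f', ⟨hgm, Cg, hCg⟩, hfg, hcv⟩ := h (ε * (δ / (4 * D))) (by positivity)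
    let K : X → ℝ := fun x => ‖f x - f' x‖
    have hKm : Measurable K := (hfm.sub hgm).norm
    have hKb : ∀ x, |K x| ≤ |Cf + Cg| := fun x => by
      show |‖f x - f' x‖| ≤ _
      rw [abs_of_nonneg (norm_nonneg _)]
      exact ((norm_sub_le _ _).trans (add_le_add (hCf x) (hCg x))).trans (le_abs_self _)
    have hB := hgood j K hKm ⟨_, hKb⟩
    let E : X → ℝ := fun x => limUnder atTop (fun N => bx k N fun m => K (g j m x))
    have hE : ∀ᵐ x ∂μ, Tendsto (fun N => bx k N fun m => K (g j m x)) atTop (𝓝 (E x)) := by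
      filter_upwards [hB] with x hx
      exact tendsto_nhds_limUnder hx
    obtain ⟨hE0, hEi, hEint⟩ := int_lim_le' (hg j) hKm (abs_nonneg _) hKb
      (fun x => norm_nonneg _) hE
    have hmark := mul_meas_ge_le_integral_of_nonneg hE0 hEi (δ / (4 * D))
    have hmark' : μ.real {x | δ / (4 * D) ≤ E x} ≤ ε := by
      have h1 : δ / (4 * D) * μ.real {x | δ / (4 * D) ≤ E x} ≤ δ / (4 * D) * ε := by
        refine hmark.trans ((hEint.trans hfg).trans ?_)
        rw [mul_comm]
      exact le_of_mul_le_mul_left h1 (by positivity)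
    have hsub : ∀ᵐ x ∂μ, x ∈ {x | ¬ ∀ᶠ N in atTop, ‖Av G N x‖ ≤ δ} →
        x ∈ {x | δ / (4 * D) ≤ E x} := by
      filter_upwards [hE, hcv] with x hx1 hx2 hx3
      show δ / (4 * D) ≤ E x
      by_contra hcon
      rw [not_le] at hcon
      apply hx3
      have h2 := (tendsto_order.mp hx1).2 _ hcon
      have hx2' := hx2.norm
      rw [norm_zero] at hx2'
      have h3 := (tendsto_order.mp hx2').2 (δ / 4) (by positivity)
      filter_upwards [h2, h3] with N hN1 hN2
      have hclose : ‖Av G N x - Av (Function.update F j f') N x‖ ≤ δ / 4 := by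
        show ‖bxc k N (fun m => (∏ l, G l (g l m x)) * W m x) -
          bxc k N (fun m => (∏ l, (Function.update F j f') l (g l m x)) * W m x)‖ ≤ δ / 4
        rw [← bxc_sub]
        refine (bxc_norm _ _ _).trans ?_
        have h3 : ∀ m, ‖(∏ l, G l (g l m x)) * W m x -
            (∏ l, (Function.update F j f') l (g l m x)) * W m x‖ ≤ D * K (g j m x) := by
          intro m
          rw [hG, prod_update, prod_update, ← sub_mul, ← sub_mul, norm_mul, norm_mul]
          have h4 := hDb m x
          have h5 := hW m x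
          have h6 : 0 ≤ ‖f (g j m x) - f' (g j m x)‖ := norm_nonneg _
          calc ‖f (g j m x) - f' (g j m x)‖ * ‖∏ l ∈ Finset.univ.erase j, F l (g l m x)‖ *
                ‖W m x‖ ≤ ‖f (g j m x) - f' (g j m x)‖ * D * 1 := by
                refine mul_le_mul (mul_le_mul_of_nonneg_left h4 h6) h5 (norm_nonneg _)
                  (mul_nonneg h6 hD0.le)
            _ = D * K (g j m x) := by
                rw [mul_one, mul_comm]
        refine (bx_mono h3).trans ?_
        rw [bx_mul]
        calc D * bx k N (fun m => K (g j m x)) ≤ D * (δ / (4 * D)) :=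
              mul_le_mul_of_nonneg_left hN1.le hD0.le
          _ = δ / 4 := by field_simp
      have e1 : Av G N x = (Av G N x - Av (Function.update F j f') N x) +
          Av (Function.update F j f') N x := by ring
      rw [e1]
      have b1 := norm_add_le (Av G N x - Av (Function.update F j f') N x)
        (Av (Function.update F j f') N x)
      have b2 : ‖Av (Function.update F j f') N x‖ < δ / 4 := hN2
      linarith
    have h10 : μ {x | ¬ ∀ᶠ N in atTop, ‖Av G N x‖ ≤ δ} ≤ μ {x | δ / (4 * D) ≤ E x} :=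
      measure_mono_ae hsub
    refine h10.trans ?_
    have h9 : μ {x | δ / (4 * D) ≤ E x} = ENNReal.ofReal (μ.real {x | δ / (4 * D) ≤ E x}) := by
      rw [measureReal_def, ENNReal.ofReal_toReal (measure_ne_top _ _)]
    rw [h9]
    calc ENNReal.ofReal (μ.real {x | δ / (4 * D) ≤ E x}) ≤ ENNReal.ofReal (ε : ℝ) :=
          ENNReal.ofReal_le_ofReal hmark'
      _ = ε := ENNReal.ofReal_coe_nnreal
  have hall := ae_all_iff.mpr fun i : ℕ => hbad (1 / ((i : ℝ) + 1)) (by positivity)
  filter_upwards [hall] with x hx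
  rw [Metric.tendsto_nhds]
  intro ε hε
  obtain ⟨i, hi⟩ := exists_nat_one_div_lt hε
  filter_upwards [hx i] with N hN
  rw [dist_eq_norm, sub_zero]
  exact hN.trans_lt hi

end cw

variable {X : Type*} {mA mY mX : MeasurableSpace X} {μ : Measure X} [IsProbabilityMeasure μ]
variable {G : Type*} [Group G]
variable {Φ : G →* Equiv.Perm X} {ℓ : G → ℝ}
variable {J : Type*} [DecidableEq J] [Fintype J] {k : ℕ}

/-- condition on a real function -/
def AdmR (μ : Measure X) (mA mY : MeasurableSpace X) (Φ : G →* Equiv.Perm X)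
    (f : X → ℝ) : Prop :=
  (∀ x, |f x| ≤ 1) ∧ (∃ r : G, Measurable[cm mA Φ r] f) ∧ Van μ mY f

theorem zero_real_gen [Nonempty J] (hk : 0 < k) (hK : KExt μ mA mY Φ ℓ) {s₀ : G} (hs₀ : 0 < ℓ s₀)
    {q : (Fin k → ℕ) → J → G}
    (hdisp : ∀ v, Disp fun n => ℓ (q n v))
    (hsepa : ∀ v w, v ≠ w → Sepa (fun n => ℓ (q n v)) (fun n => ℓ (q n w)))
    (hgood : ∀ v, Good1 μ fun n => (Φ (q n v) : X → X))
    {f : J → X → ℝ} (hf : ∀ v, AdmR μ mA mY Φ (f v))
    {W : (Fin k → ℕ) → X → ℝ} (hW : ∀ n, Measurable[mY] (W n) ∧ ∀ x, |W n x| ≤ 1) :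
    ∀ᵐ x ∂μ, Tendsto (fun N => bx k N fun n => (∏ v, f v (Φ (q n v) x)) * W n x)
      atTop (𝓝 0) := by
  classical
  choose r₀ hr₀ using fun v => (hf v).2.1
  obtain ⟨r, hr⟩ := exists_upper hK.filt hs₀ r₀
  have hFm : ∀ v, Measurable[cm mA Φ r] (f v) := fun v =>
    (hr₀ v).mono (cm_mono hK.filt (hr v)) le_rfl
  have hFmX : ∀ v, Measurable (f v) := fun v =>
    (hFm v).mono (cm_le hK.fl hK.filt r) le_rfl
  refine box_zero_gen hk hK.fl hK.filt hK.base hdisp hsepa hgood hFm
    (fun v => (hf v).1) hW fun ε hε => ?_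
  choose s₁ hs₁ using fun v => small_past' hK.fl hK.filt hs₀ hK.tail (hFmX v) (hf v).1
    (hf v).2.2 hε
  obtain ⟨s₂, hs₂⟩ := exists_lower hK.filt hs₀ s₁
  obtain ⟨s, hs⟩ := exists_lower (J := Bool) hK.filt hs₀ (fun b => if b then s₂ else r)
  have hss₂ : ℓ s ≤ ℓ s₂ := hs true
  have hsr : ℓ s ≤ ℓ r := hs false
  choose G hG hGe using fun v => exists_CE (cm_le hK.fl hK.filt s) (hFmX v) (hf v).1 (μ := μ)
  refine ⟨s, hsr, G, hG, fun v => ?_⟩
  have e : ∫ x, |G v x| ∂μ = ∫ x, |(μ[f v | cm mA Φ s]) x| ∂μ := by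
    apply integral_congr_ae
    filter_upwards [hGe v] with x hx
    rw [hx]
  rw [e]
  exact hs₁ v s (hss₂.trans (hs₂ v))

/-- condition on a complex function -/
def AdmZ {X : Type*} [mX : MeasurableSpace X] (μ : Measure X) (mY : MeasurableSpace X)
    (F : X → ℂ) : Prop :=
  @Pool.Agent.W761.Box.BM X mX F ∧ ∀ B : Set X, MeasurableSet[mY] B → ∫ x in B, F x ∂μ = 0

theorem AdmR.bm (hK : KExt μ mA mY Φ ℓ) {f : X → ℝ}
    (hf : AdmR μ mA mY Φ f) : BM fun x => (f x : ℂ) := by
  have hm : Measurable f := by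
    obtain ⟨r, hr⟩ := hf.2.1
    exact hr.mono (cm_le hK.fl hK.filt r) le_rfl
  exact ⟨Complex.measurable_ofReal.comp hm, 1, fun x => by
    rw [Complex.norm_real]
    exact hf.1 x⟩

/-- **Convergence to zero.** -/
theorem zero_complex_gen [Nonempty J] (hk : 0 < k) (hK : KExt μ mA mY Φ ℓ) {s₀ : G}
    (hs₀ : 0 < ℓ s₀) {q : (Fin k → ℕ) → J → G}
    (hdisp : ∀ v, Disp fun n => ℓ (q n v))
    (hsepa : ∀ v w, v ≠ w → Sepa (fun n => ℓ (q n v)) (fun n => ℓ (q n w)))
    (hgood : ∀ v, Good1 μ fun n => (Φ (q n v) : X → X))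
    {W : (Fin k → ℕ) → X → ℂ} (hW : ∀ n, Measurable[mY] (W n) ∧ ∀ x, ‖W n x‖ ≤ 1)
    {F : J → X → ℂ} (hF : ∀ v, AdmZ μ mY (F v)) :
    Cw μ (fun v n => (Φ (q n v) : X → X)) W F := by
  classical
  set g : J → (Fin k → ℕ) → X → X := fun v n => (Φ (q n v) : X → X) with hg
  have key : ∀ (B : Finset J) (F : J → X → ℂ), (∀ v ∈ B, AdmZ μ mY (F v)) →
      (∀ v ∉ B, ∃ f : X → ℝ, AdmR μ mA mY Φ f ∧ F v = fun x => (f x : ℂ)) → Cw μ g W F := by
    intro B
    induction B using Finset.induction_on with
    | empty =>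
      intro F _ hF2
      choose f hf hFf using fun v => hF2 v (Finset.notMem_empty v)
      have hWre : ∀ n, Measurable[mY] (fun x => (W n x).re) ∧ ∀ x, |(W n x).re| ≤ 1 := fun n =>
        ⟨Complex.measurable_re.comp (hW n).1, fun x =>
          (Complex.abs_re_le_norm _).trans ((hW n).2 x)⟩
      have hWim : ∀ n, Measurable[mY] (fun x => (W n x).im) ∧ ∀ x, |(W n x).im| ≤ 1 := fun n =>
        ⟨Complex.measurable_im.comp (hW n).1, fun x =>
          (Complex.abs_im_le_norm _).trans ((hW n).2 x)⟩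
      have h4 := zero_real_gen hk hK hs₀ hdisp hsepa hgood hf hWre
      have h4' := zero_real_gen hk hK hs₀ hdisp hsepa hgood hf hWim
      filter_upwards [h4, h4'] with x hx hx'
      have h5 := (Complex.continuous_ofReal.tendsto _).comp hx
      have h6 := (Complex.continuous_ofReal.tendsto _).comp hx'
      rw [Complex.ofReal_zero] at h5 h6
      have h7 := h5.add (h6.const_mul Complex.I)
      rw [mul_zero, add_zero] at h7
      refine h7.congr fun N => ?_
      rw [Function.comp_apply, Function.comp_apply, ← bxc_cast, ← bxc_cast, ← bxc_mul, ← bxc_add]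
      congr 1
      funext n
      have e1 : ∏ j, F j (g j n x) = ((∏ v, f v (Φ (q n v) x) : ℝ) : ℂ) := by
        push_cast
        refine Finset.prod_congr rfl fun v _ => ?_
        rw [hFf v]
      rw [e1]
      conv_rhs => rw [← Complex.re_add_im (W n x)]
      push_cast
      ring
    | insert v B hv ih =>
      intro F hF1 hF2
      have hBMall : ∀ w, BM (F w) := by
        intro w
        by_cases hw : w ∈ insert v B
        · exact (hF1 w hw).1
        · obtain ⟨f, hf, e⟩ := hF2 w hw
          rw [e]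
          exact hf.bm hK
      have hcast : ∀ f : X → ℝ, AdmR μ mA mY Φ f →
          Cw μ g W (Function.update F v fun x => (f x : ℂ)) := by
        intro f hf
        apply ih
        · intro w hw
          have hwv : w ≠ v := fun e => hv (e ▸ hw)
          rw [Function.update_of_ne hwv]
          exact hF1 w (Finset.mem_insert_of_mem hw)
        · intro w hw
          by_cases hwv : w = v
          · subst hwv
            exact ⟨f, hf, by rw [Function.update_self]⟩
          · rw [Function.update_of_ne hwv]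
            apply hF2
            intro hmem
            rcases Finset.mem_insert.mp hmem with h5 | h5
            · exact hwv h5
            · exact hw h5
      have hcomb : ∀ (C : ℝ) (f₁ f₂ : X → ℝ), AdmR μ mA mY Φ f₁ → AdmR μ mA mY Φ f₂ →
          Cw μ g W (Function.update F v (((C : ℂ) • fun x => (f₁ x : ℂ)) +
            ((C : ℂ) * Complex.I) • fun x => (f₂ x : ℂ))) := by
        intro C f₁ f₂ hf₁ hf₂
        exact Cw_add (Cw_smul _ (hcast f₁ hf₁)) (Cw_smul _ (hcast f₂ hf₂))
      obtain ⟨hBM, hSv⟩ := hF1 v (Finset.mem_insert_self v B)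
      obtain ⟨hFm, C₀, hC₀⟩ := hBM
      set C : ℝ := |C₀| + 1 with hC
      have hCpos : 0 < C := by positivity
      have hCb : ∀ x, ‖F v x‖ ≤ C := fun x =>
        ((hC₀ x).trans (le_abs_self _)).trans (by rw [hC]; linarith)
      set f₁ : X → ℝ := fun x => (F v x).re / C with hf₁
      set f₂ : X → ℝ := fun x => (F v x).im / C with hf₂
      have hb₁ : ∀ x, |f₁ x| ≤ 1 := by
        intro x
        rw [hf₁]
        show |(F v x).re / C| ≤ 1
        rw [abs_div, abs_of_pos hCpos, div_le_one hCpos]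
        exact (Complex.abs_re_le_norm _).trans (hCb x)
      have hb₂ : ∀ x, |f₂ x| ≤ 1 := by
        intro x
        rw [hf₂]
        show |(F v x).im / C| ≤ 1
        rw [abs_div, abs_of_pos hCpos, div_le_one hCpos]
        exact (Complex.abs_im_le_norm _).trans (hCb x)
      have hm₁ : Measurable f₁ := (Complex.measurable_re.comp hFm).div_const _
      have hm₂ : Measurable f₂ := (Complex.measurable_im.comp hFm).div_const _
      have hdec : ∀ x, F v x = (C : ℂ) * (f₁ x : ℂ) + (C : ℂ) * Complex.I * (f₂ x : ℂ) := by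
        intro x
        have hC' : (C : ℂ) ≠ 0 := by exact_mod_cast hCpos.ne'
        rw [hf₁, hf₂]
        push_cast
        field_simp
        exact (Complex.re_add_im (F v x)).symm.trans (by ring)
      have hgoal : Cw μ g W (Function.update F v (F v)) := by
        have hFi : Integrable (F v) μ := Integrable.of_bound hFm.aestronglyMeasurable C
          (Eventually.of_forall hCb)
        have hV₁ : Van μ mY f₁ := by
          intro B hB
          have h4 := hSv B hB
          have h5 : ∫ x in B, f₁ x ∂μ = (∫ x in B, F v x ∂μ).re / C := by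
            rw [hf₁, integral_div]
            congr 1
            exact integral_re hFi.integrableOn
          rw [h5, h4]
          simp
        have hV₂ : Van μ mY f₂ := by
          intro B hB
          have h4 := hSv B hB
          have h5 : ∫ x in B, f₂ x ∂μ = (∫ x in B, F v x ∂μ).im / C := by
            rw [hf₂, integral_div]
            congr 1
            exact integral_im hFi.integrableOn
          rw [h5, h4]
          simp
        refine Cw_closed (fun n => (hW n).2) (fun w n => hK.fl _) hgood hBMall ⟨hFm, C, hCb⟩ ?_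
        intro ε hε
        have happ : ∀ f : X → ℝ, Measurable f → (∀ x, |f x| ≤ 1) → Van μ mY f →
            ∃ g' : X → ℝ, AdmR μ mA mY Φ g' ∧ ∫ x, |f x - g' x| ∂μ ≤ ε / (2 * C) := by
          intro f hfm hfb hfV
          obtain ⟨r, hr⟩ := dense_future hK.fl hK.filt hs₀ hK.gen hfm hfb
            (show (0 : ℝ) < ε / (2 * C) by positivity)
          obtain ⟨g', hg', hge⟩ := exists_CE (cm_le hK.fl hK.filt r) hfm hfb (μ := μ)
          refine ⟨g', ⟨hg'.2.1, ⟨r, hg'.1⟩, van_CE (cm_le hK.fl hK.filt r)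
            (base_le hK.base r) hfm hfb hg' hfV⟩, ?_⟩
          refine le_trans (le_of_eq ?_) hr
          apply integral_congr_ae
          filter_upwards [hge] with x hx
          rw [hx]
        obtain ⟨g₁, hg₁, hg₁'⟩ := happ f₁ hm₁ hb₁ hV₁
        obtain ⟨g₂, hg₂, hg₂'⟩ := happ f₂ hm₂ hb₂ hV₂
        obtain ⟨hg₁m, -⟩ := hg₁.bm hK
        obtain ⟨hg₂m, -⟩ := hg₂.bm hK
        have hg₁r : Measurable g₁ := by
          have := Complex.measurable_re.comp hg₁m
          exact this
        have hg₂r : Measurable g₂ := by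
          have := Complex.measurable_re.comp hg₂m
          exact this
        refine ⟨((C : ℂ) • fun x => (g₁ x : ℂ)) + ((C : ℂ) * Complex.I) • fun x => (g₂ x : ℂ),
          ⟨(hg₁m.const_smul _).add (hg₂m.const_smul _), 2 * C, fun x => ?_⟩, ?_,
          hcomb C g₁ g₂ hg₁ hg₂⟩
        · simp only [Pi.add_apply, Pi.smul_apply, smul_eq_mul]
          refine (norm_add_le _ _).trans ?_
          rw [norm_mul, norm_mul, norm_mul, Complex.norm_I, Complex.norm_real,
            Complex.norm_real, Complex.norm_real, Real.norm_of_nonneg hCpos.le,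
            Real.norm_eq_abs, Real.norm_eq_abs]
          have a1 := hg₁.1 x
          have a2 := hg₂.1 x
          nlinarith [abs_nonneg (g₁ x), abs_nonneg (g₂ x)]
        · have hi₁ : Integrable (fun x => |f₁ x - g₁ x|) μ := by
            refine Integrable.of_bound (hm₁.sub hg₁r).abs.aestronglyMeasurable 2
              (Eventually.of_forall fun x => ?_)
            rw [Real.norm_eq_abs, abs_abs]
            exact (abs_sub _ _).trans (by linarith [hb₁ x, hg₁.1 x])
          have hi₂ : Integrable (fun x => |f₂ x - g₂ x|) μ := by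
            refine Integrable.of_bound (hm₂.sub hg₂r).abs.aestronglyMeasurable 2
              (Eventually.of_forall fun x => ?_)
            rw [Real.norm_eq_abs, abs_abs]
            exact (abs_sub _ _).trans (by linarith [hb₂ x, hg₂.1 x])
          have hle : ∀ x, ‖F v x - (((C : ℂ) • fun x => (g₁ x : ℂ)) +
              ((C : ℂ) * Complex.I) • fun x => (g₂ x : ℂ)) x‖ ≤
              C * |f₁ x - g₁ x| + C * |f₂ x - g₂ x| := by
            intro x
            simp only [Pi.add_apply, Pi.smul_apply, smul_eq_mul]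
            rw [hdec x]
            have e : (C : ℂ) * (f₁ x : ℂ) + (C : ℂ) * Complex.I * (f₂ x : ℂ) -
                ((C : ℂ) * (g₁ x : ℂ) + (C : ℂ) * Complex.I * (g₂ x : ℂ)) =
                (C : ℂ) * ((f₁ x - g₁ x : ℝ) : ℂ) +
                  (C : ℂ) * Complex.I * ((f₂ x - g₂ x : ℝ) : ℂ) := by
              push_cast
              ring
            rw [e]
            refine (norm_add_le _ _).trans ?_
            rw [norm_mul, norm_mul, norm_mul, Complex.norm_I, Complex.norm_real,
              Complex.norm_real, Complex.norm_real, Real.norm_of_nonneg hCpos.le,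
              Real.norm_eq_abs, Real.norm_eq_abs, mul_one]
          refine (integral_mono_of_nonneg (Eventually.of_forall fun x => norm_nonneg _)
            ((hi₁.const_mul C).add (hi₂.const_mul C)) (Eventually.of_forall hle)).trans ?_
          rw [integral_add' (hi₁.const_mul C) (hi₂.const_mul C), integral_const_mul,
            integral_const_mul]
          calc C * ∫ x, |f₁ x - g₁ x| ∂μ + C * ∫ x, |f₂ x - g₂ x| ∂μ ≤
              C * (ε / (2 * C)) + C * (ε / (2 * C)) :=
                add_le_add (mul_le_mul_of_nonneg_left hg₁' hCpos.le)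
                  (mul_le_mul_of_nonneg_left hg₂' hCpos.le)
            _ = ε := by field_simp; norm_num
      rwa [Function.update_eq_self] at hgoal
  exact key Finset.univ F (fun v _ => hF v) fun v hv => absurd (Finset.mem_univ v) hv

theorem one_le_prod_real {ι : Type*} (s : Finset ι) {a : ι → ℝ} (h : ∀ j ∈ s, 1 ≤ a j) :
    1 ≤ ∏ j ∈ s, a j := by
  classical
  induction s using Finset.induction_on with
  | empty => simp
  | insert j s hj ih =>
    rw [Finset.prod_insert hj]
    have h1 := h j (Finset.mem_insert_self j s)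
    have h2 := ih fun i hi => h i (Finset.mem_insert_of_mem hi)
    nlinarith

/-- **The base is characteristic.** -/
theorem char_gen (hk : 0 < k) (hK : KExt μ mA mY Φ ℓ) {s₀ : G} (hs₀ : 0 < ℓ s₀)
    {q : (Fin k → ℕ) → J → G}
    (hdisp : ∀ v, Disp fun n => ℓ (q n v))
    (hsepa : ∀ v w, v ≠ w → Sepa (fun n => ℓ (q n v)) (fun n => ℓ (q n w)))
    (hgood : ∀ v, Good1 μ fun n => (Φ (q n v) : X → X))
    {W : (Fin k → ℕ) → X → ℂ} (hW : ∀ n, Measurable[mY] (W n) ∧ ∀ x, ‖W n x‖ ≤ 1)
    {f e : J → X → ℂ}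
    (hf : ∀ j, @BM X mX (f j)) (he : ∀ j, @BM X mX (e j)) (heY : ∀ j, Measurable[mY] (e j))
    (hfe : ∀ j, ∀ B : Set X, MeasurableSet[mY] B → ∫ x in B, (f j x - e j x) ∂μ = 0) :
    ∀ᵐ x ∂μ, Tendsto (fun N => bxc k N fun n => (∏ j, f j (Φ (q n j) x) -
      ∏ j, e j (Φ (q n j) x)) * W n x) atTop (𝓝 0) := by
  classical
  choose hem Ce hCe using he
  set D : ℝ := ∏ j, (|Ce j| + 1) with hD
  have hD1 : 1 ≤ D := one_le_prod_real _ fun j _ => by
    have := abs_nonneg (Ce j)
    linarith
  have hD0 : 0 < D := lt_of_lt_of_le one_pos hD1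
  have hDt : ∀ (t : Finset J) (n : Fin k → ℕ) (x : X),
      ‖∏ j ∈ Finset.univ \ t, e j (Φ (q n j) x)‖ ≤ D := by
    intro t n x
    rw [norm_prod]
    refine (Finset.prod_le_prod (g := fun j => |Ce j| + 1) (fun l _ => norm_nonneg _)
      fun l _ => ((hCe l _).trans (le_abs_self _)).trans (by linarith)).trans ?_
    rw [hD, ← Finset.prod_sdiff (Finset.subset_univ t)]
    have h1 : 1 ≤ ∏ j ∈ t, (|Ce j| + 1) := one_le_prod_real _ fun j _ => by
      have := abs_nonneg (Ce j)
      linarith
    have h2 : 0 ≤ ∏ j ∈ Finset.univ \ t, (|Ce j| + 1) :=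
      Finset.prod_nonneg fun j _ => by positivity
    nlinarith
  have key : ∀ t : Finset J, t ≠ ∅ → ∀ᵐ x ∂μ, Tendsto (fun N => bxc k N fun n =>
      ((∏ j ∈ t, (f j (Φ (q n j) x) - e j (Φ (q n j) x))) *
        ∏ j ∈ Finset.univ \ t, e j (Φ (q n j) x)) * W n x) atTop (𝓝 0) := by
    intro t ht
    obtain ⟨j₀, hj₀⟩ := Finset.nonempty_of_ne_empty ht
    have : Nonempty t := ⟨⟨j₀, hj₀⟩⟩
    have hz := zero_complex_gen (J := t) (k := k) (q := fun n j => q n j.1)
      (W := fun n x => (D : ℂ)⁻¹ * ((∏ j ∈ Finset.univ \ t, e j (Φ (q n j) x)) * W n x))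
      hk hK hs₀ (fun v => hdisp v.1)
      (fun v w hvw => hsepa v.1 w.1 fun h => hvw (Subtype.ext h)) (fun v => hgood v.1)
      (fun n => by
        refine ⟨?_, fun x => ?_⟩
        · refine Measurable.const_mul ?_ _
          refine Measurable.mul ?_ (hW n).1
          refine Finset.measurable_fun_prod _ fun w _ => ?_
          exact (heY w).comp (hK.base.inv _)
        · rw [norm_mul, norm_mul, norm_inv, Complex.norm_real, Real.norm_of_nonneg hD0.le]
          have h1 := hDt t n x
          have h2 := (hW n).2 x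
          calc D⁻¹ * (‖∏ j ∈ Finset.univ \ t, e j (Φ (q n j) x)‖ * ‖W n x‖) ≤
              D⁻¹ * (D * 1) := mul_le_mul_of_nonneg_left
                (mul_le_mul h1 h2 (norm_nonneg _) hD0.le) (inv_nonneg.2 hD0.le)
            _ = 1 := by rw [mul_one, inv_mul_cancel₀ hD0.ne'])
      (F := fun j x => f j.1 x - e j.1 x) (fun v => by
        obtain ⟨m₁, C₁, b₁⟩ := hf v.1
        exact ⟨⟨m₁.sub (hem v.1), C₁ + Ce v.1, fun x => (norm_sub_le _ _).trans
            (add_le_add (b₁ x) (hCe v.1 x))⟩, hfe v.1⟩)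
    filter_upwards [hz] with x hx
    have hx' := hx.const_mul (D : ℂ)
    rw [mul_zero] at hx'
    refine hx'.congr fun N => ?_
    rw [← bxc_mul]
    congr 1
    funext n
    have hDc : (D : ℂ) ≠ 0 := by exact_mod_cast hD0.ne'
    have e1 : ∏ j : t, (f j.1 (Φ (q n j.1) x) - e j.1 (Φ (q n j.1) x)) =
        ∏ j ∈ t, (f j (Φ (q n j) x) - e j (Φ (q n j) x)) :=
      Finset.prod_coe_sort t (fun j => f j (Φ (q n j) x) - e j (Φ (q n j) x))
    rw [e1]
    field_simp
  have hall : ∀ᵐ x ∂μ, ∀ t : Finset J, t ≠ ∅ → Tendsto (fun N => bxc k N fun n =>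
      ((∏ j ∈ t, (f j (Φ (q n j) x) - e j (Φ (q n j) x))) *
        ∏ j ∈ Finset.univ \ t, e j (Φ (q n j) x)) * W n x) atTop (𝓝 0) := by
    rw [ae_all_iff]
    intro t
    by_cases ht : t = ∅
    · exact Eventually.of_forall fun x h => absurd ht h
    · filter_upwards [key t ht] with x hx _
      exact hx
  filter_upwards [hall] with x hx
  have hsum := tendsto_finsetSum ((Finset.univ : Finset J).powerset.erase ∅) fun t ht =>
    hx t (Finset.ne_of_mem_erase ht)
  rw [Finset.sum_const_zero] at hsum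
  refine hsum.congr fun N => ?_
  rw [← bxc_sum]
  congr 1
  funext n
  have h1 := Finset.prod_add (fun j => f j (Φ (q n j) x) - e j (Φ (q n j) x))
    (fun j => e j (Φ (q n j) x)) (Finset.univ : Finset J)
  have h2 : ∏ j, (f j (Φ (q n j) x) - e j (Φ (q n j) x) + e j (Φ (q n j) x)) =
      ∏ j, f j (Φ (q n j) x) := Finset.prod_congr rfl fun j _ => by ring
  rw [h2, ← Finset.add_sum_erase _ _ (Finset.empty_mem_powerset _)] at h1
  rw [h1, Finset.prod_empty, one_mul, Finset.sdiff_empty, ← Finset.sum_mul]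
  ring

end Pool.Agent.Run7.h484.KB
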