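import Pool.Agent.Run7.h484.KB.Line
import Pool.Agent.TH784.KE.Zero

/-!
# Convergence to zero of weighted box averages along general positions
-/

set_option autoImplicit false
set_option linter.unusedSectionVars false

open MeasureTheory Filter Topology

noncomputable section

namespace Pool.Agent.Run7.h484.KB

open Pool.Agent.TH784.KE
open Pool.Agent.W761.Box (bx bx_add bx_mul bx_sum bx_mono bx_abs bx_const_le bx_nonneg good1
  Good1 int_lim_le')
open Pool.Agent.TH784.AA (bxs mem_bxs vol vol_pos vol_nonneg card_bxs sum_fiber bxs_mono)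

open Classical in
/-- density zero along unrestricted boxes -/
def DZ {k : ℕ} (E : Set (Fin k → ℕ)) : Prop :=
  Tendsto (fun N => bx k N fun n => if n ∈ E then (1 : ℝ) else 0) atTop (𝓝 0)

variable {X : Type*} {mA mY mX : MeasurableSpace X} {μ : Measure X} [IsProbabilityMeasure μ]
variable {G : Type*} [Group G]
variable {Φ : G →* Equiv.Perm X} {ℓ : G → ℝ}
variable {J : Type*} [DecidableEq J] [Fintype J] {k : ℕ}

/-- dispersion: for each direction `l` the positions have bounded multiplicity on all lines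
outside a set of lines of density zero -/
def Disp (a : (Fin k → ℕ) → ℝ) : Prop :=
  ∀ (l : Fin k) (R : ℝ), 0 < R → ∃ (L : ℕ) (E : Set (Fin k → ℕ)), DZ E ∧
    ∀ n ∉ E, Mult (fun t => a (Function.update n l t)) R L

/-- separation -/
def Sepa (a b : (Fin k → ℕ) → ℝ) : Prop :=
  ∀ R : ℝ, DZ {n | |a n - b n| < R}

theorem DZ.union {E E' : Set (Fin k → ℕ)} (h : DZ E) (h' : DZ E') : DZ (E ∪ E') := by
  classical
  unfold DZ at *
  have h2 := h.add h'
  rw [add_zero] at h2
  refine squeeze_zero (fun N => bx_nonneg fun n => by split_ifs <;> norm_num) (fun N => ?_) h2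
  rw [← bx_add]
  refine bx_mono fun n => ?_
  by_cases h3 : n ∈ E
  · by_cases h4 : n ∈ E'
    · simp [h3, h4]
    · simp [h3, h4]
  · by_cases h4 : n ∈ E'
    · simp [h3, h4]
    · simp [h3, h4]

theorem DZ.empty : DZ (∅ : Set (Fin k → ℕ)) := by
  unfold DZ
  refine (tendsto_const_nhds (x := (0 : ℝ))).congr fun N => ?_
  rw [bx_eq]
  symm
  apply mul_eq_zero_of_right
  apply Finset.sum_eq_zero
  intro n _
  rw [if_neg (Set.notMem_empty n)]

theorem DZ.biUnion {ι : Type*} (s : Finset ι) {E : ι → Set (Fin k → ℕ)} (h : ∀ i ∈ s, DZ (E i)) :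
    DZ (⋃ i ∈ s, E i) := by
  classical
  induction s using Finset.induction_on with
  | empty => simpa using DZ.empty
  | insert a s ha ih =>
    rw [Finset.set_biUnion_insert]
    exact (h a (Finset.mem_insert_self a s)).union
      (ih fun i hi => h i (Finset.mem_insert_of_mem hi))

/-- uniform version of the dispersion -/
theorem disp_unif {ι : Type*} [Fintype ι] {a : ι → (Fin k → ℕ) → ℝ} (h : ∀ v, Disp (a v)) {R : ℝ}
    (hR : 0 < R) : ∃ (L : ℕ) (E : Fin k → Set (Fin k → ℕ)), 0 < L ∧ (∀ l, DZ (E l)) ∧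
      ∀ l, ∀ n ∉ E l, ∀ v, Mult (fun t => a v (Function.update n l t)) R L := by
  classical
  choose L E h1 h3 using fun (v : ι) (l : Fin k) => h v l R hR
  refine ⟨(∑ v, ∑ l, L v l) + 1, fun l => ⋃ v ∈ (Finset.univ : Finset ι), E v l,
    Nat.succ_pos _, fun l => DZ.biUnion _ fun v _ => h1 v l, ?_⟩
  · intro l n hn v
    simp only [Finset.mem_univ, Set.iUnion_true, Set.mem_iUnion, not_exists] at hn
    refine (h3 v l n (hn v)).mono ?_
    have e1 : L v l ≤ ∑ l, L v l :=
      Finset.single_le_sum (f := fun l => L v l) (fun _ _ => Nat.zero_le _) (Finset.mem_univ l)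
    have e2 : ∑ l, L v l ≤ ∑ v, ∑ l, L v l :=
      Finset.single_le_sum (f := fun v => ∑ l, L v l) (fun _ _ => Nat.zero_le _)
        (Finset.mem_univ v)
    omega

open Classical in
theorem bound_gen [Nonempty J] (hk : 0 < k) (hFl : Flow μ Φ) (hA : Filt mX mA Φ ℓ)
    (hY : Base mY mA Φ)
    {q : (Fin k → ℕ) → J → G}
    {F H : J → X → ℝ} {W : (Fin k → ℕ) → X → ℝ} {r s : G} {R : ℝ} (hsr : ℓ s ≤ ℓ r)
    (hR : ℓ r - ℓ s ≤ R) (hR0 : 0 < R)
    (hF : ∀ v, Measurable[cm mA Φ r] (F v)) (hF1 : ∀ v x, |F v x| ≤ 1)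
    (hW : ∀ n, Measurable[mY] (W n) ∧ ∀ x, |W n x| ≤ 1)
    (hH : ∀ v, CE μ (cm mA Φ s) (F v) (H v))
    {L : ℕ} (hL : 0 < L) {E : Fin k → Set (Fin k → ℕ)}
    (hE : ∀ l, ∀ n ∉ E l, ∀ v, Mult (fun t => ℓ (q (Function.update n l t) v)) R L)
    {η : ℝ} (hη : 0 < η) :
    ∀ᵐ x ∂μ, ∀ᶠ N : Fin k → ℕ in atTop,
      |bx k N fun n => (∏ v, F v (Φ (q n v) x)) * W n x| ≤
        η + (bx k N (fun n => errb Φ ℓ R H Finset.univ (q n) x) +
          ∑ l, bx k N fun n => if n ∈ E l then (1 : ℝ) else 0) := by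
  have : Nonempty (Fin k) := ⟨⟨0, hk⟩⟩
  have hlines : ∀ᵐ x ∂μ, ∀ l : Fin k, ∀ᶠ M : ℕ in atTop, ∀ n ∈ bxs (fun _ : Fin k => M),
      n ∉ E l → |∑ t ∈ Finset.range M, ∑ v, DD Finset.univ Φ ℓ R F H
        (W (Function.update n l t)) (q (Function.update n l t)) v x| ≤ η * M := by
    rw [ae_all_iff]
    intro l
    exact lines_gen hFl hA hY l hsr hR hR0.le (fun w _ => ⟨hF w, hF1 w⟩) (fun v _ => hH v) hW hL
      (E l) (fun n hn v _ => hE l n hn v) hη
  filter_upwards [hlines] with x hx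
  obtain ⟨M₀, hM₀⟩ := eventually_atTop.1 (eventually_all.2 hx)
  refine eventually_atTop.2 ⟨fun _ => max M₀ 1, fun N hN => ?_⟩
  have hN1 : ∀ j, 1 ≤ N j := fun j => (le_max_right _ _).trans (hN j)
  obtain ⟨l, hl⟩ := Finite.exists_max N
  have hNl : M₀ ≤ N l := (le_max_left _ _).trans (hN l)
  have hNlpos : (0 : ℝ) < N l := by
    have := hN1 l
    positivity
  have herr0 : ∀ p : J → G, 0 ≤ errb Φ ℓ R H Finset.univ p x := by
    intro p
    unfold errb
    refine add_nonneg (Finset.sum_nonneg fun _ _ => abs_nonneg _)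
      (Finset.sum_nonneg fun _ _ => Finset.sum_nonneg fun _ _ => ?_)
    split_ifs <;> norm_num
  have hline : ∀ n ∈ bxs N, |(N l : ℝ)⁻¹ * ∑ t ∈ Finset.range (N l),
      (∏ v, F v (Φ (q (Function.update n l t) v) x)) * W (Function.update n l t) x| ≤
      η + ((N l : ℝ)⁻¹ * ∑ t ∈ Finset.range (N l),
        errb Φ ℓ R H Finset.univ (q (Function.update n l t)) x +
          if n ∈ E l then (1 : ℝ) else 0) := by
    intro n hn
    rw [abs_mul, abs_of_pos (inv_pos.2 hNlpos)]
    by_cases hnE : n ∈ E l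
    · rw [if_pos hnE]
      have e1 : |∑ t ∈ Finset.range (N l),
          (∏ v, F v (Φ (q (Function.update n l t) v) x)) * W (Function.update n l t) x| ≤
          N l := by
        refine (Finset.abs_sum_le_sum_abs _ _).trans ?_
        refine (Finset.sum_le_sum (g := fun _ => (1 : ℝ)) fun t _ => ?_).trans (by simp)
        rw [abs_mul]
        have h2 := prod_abs_le (Φ := Φ) (V := Finset.univ) (F := F)
          (fun w _ => hF1 w) (q (Function.update n l t)) x
        calc _ ≤ (1 : ℝ) * 1 := mul_le_mul h2 ((hW _).2 x) (abs_nonneg _) zero_le_one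
          _ = 1 := one_mul 1
      have e2 : (N l : ℝ)⁻¹ * |∑ t ∈ Finset.range (N l),
          (∏ v, F v (Φ (q (Function.update n l t) v) x)) * W (Function.update n l t) x| ≤ 1 := by
        calc _ ≤ (N l : ℝ)⁻¹ * N l := mul_le_mul_of_nonneg_left e1 (inv_pos.2 hNlpos).le
          _ = 1 := inv_mul_cancel₀ hNlpos.ne'
      have e3 : 0 ≤ (N l : ℝ)⁻¹ * ∑ t ∈ Finset.range (N l),
          errb Φ ℓ R H Finset.univ (q (Function.update n l t)) x :=
        mul_nonneg (inv_pos.2 hNlpos).le (Finset.sum_nonneg fun _ _ => herr0 _)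
      linarith
    · rw [if_neg hnE, add_zero]
      have hn' : n ∈ bxs (fun _ : Fin k => N l) := bxs_mono hl hn
      have e2 : |∑ t ∈ Finset.range (N l),
            ((∏ v, F v (Φ (q (Function.update n l t) v) x)) *
              W (Function.update n l t) x)| ≤ η * N l + ∑ t ∈ Finset.range (N l),
          errb Φ ℓ R H Finset.univ (q (Function.update n l t)) x := by
        have e3 : ∑ t ∈ Finset.range (N l),
            ((∏ v, F v (Φ (q (Function.update n l t) v) x)) *
              W (Function.update n l t) x) =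
            ∑ t ∈ Finset.range (N l), ∑ v, DD Finset.univ Φ ℓ R F H
              (W (Function.update n l t)) (q (Function.update n l t)) v x +
            ∑ t ∈ Finset.range (N l), ((∏ v, F v (Φ (q (Function.update n l t) v) x)) *
              W (Function.update n l t) x - ∑ v, DD Finset.univ Φ ℓ R F H
                (W (Function.update n l t)) (q (Function.update n l t)) v x) := by
          rw [← Finset.sum_add_distrib]
          refine Finset.sum_congr rfl fun t _ => ?_
          ring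
        rw [e3]
        refine (abs_add_le _ _).trans (add_le_add (hM₀ _ hNl l n hn' hnE) ?_)
        refine (Finset.abs_sum_le_sum_abs _ _).trans (Finset.sum_le_sum fun t _ => ?_)
        exact pointwise Finset.univ_nonempty hR0 (fun w _ => hF1 w) (hW _).2 _ x
      calc (N l : ℝ)⁻¹ * |∑ t ∈ Finset.range (N l),
            ((∏ v, F v (Φ (q (Function.update n l t) v) x)) *
              W (Function.update n l t) x)| ≤
            (N l : ℝ)⁻¹ * (η * N l + ∑ t ∈ Finset.range (N l),
              errb Φ ℓ R H Finset.univ (q (Function.update n l t)) x) :=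
            mul_le_mul_of_nonneg_left e2 (inv_pos.2 hNlpos).le
        _ = _ := by
            field_simp
  rw [bx_slice hN1 l]
  refine bx_abs.trans ((bx_mono_of hline).trans ?_)
  rw [bx_add, bx_add, ← bx_slice hN1 l (fun n => errb Φ ℓ R H Finset.univ (q n) x)]
  refine add_le_add (bx_const_le hη.le) (add_le_add le_rfl ?_)
  exact Finset.single_le_sum (f := fun l => bx k N fun n => if n ∈ E l then (1 : ℝ) else 0)
    (fun l _ => bx_nonneg fun n => by split_ifs <;> norm_num) (Finset.mem_univ l)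

/-- **Convergence to zero.** -/
theorem box_zero_gen [Nonempty J] (hk : 0 < k) (hFl : Flow μ Φ) (hA : Filt mX mA Φ ℓ)
    (hY : Base mY mA Φ) {q : (Fin k → ℕ) → J → G}
    (hdisp : ∀ v, Disp fun n => ℓ (q n v))
    (hsepa : ∀ v w, v ≠ w → Sepa (fun n => ℓ (q n v)) (fun n => ℓ (q n w)))
    (hgood : ∀ v, Good1 μ fun n => (Φ (q n v) : X → X))
    {F : J → X → ℝ} {W : (Fin k → ℕ) → X → ℝ} {r : G}
    (hF : ∀ v, Measurable[cm mA Φ r] (F v)) (hF1 : ∀ v x, |F v x| ≤ 1)
    (hW : ∀ n, Measurable[mY] (W n) ∧ ∀ x, |W n x| ≤ 1)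
    (hsm : ∀ ε : ℝ, 0 < ε → ∃ s : G, ℓ s ≤ ℓ r ∧ ∃ H : J → X → ℝ,
      (∀ v, CE μ (cm mA Φ s) (F v) (H v)) ∧ ∀ v, ∫ x, |H v x| ∂μ ≤ ε) :
    ∀ᵐ x ∂μ, Tendsto (fun N => bx k N fun n => (∏ v, F v (Φ (q n v) x)) * W n x)
      atTop (𝓝 0) := by
  classical
  have hbad : ∀ δ : ℝ, 0 < δ → ∀ᵐ x ∂μ, ∀ᶠ N : Fin k → ℕ in atTop,
      |bx k N fun n => (∏ v, F v (Φ (q n v) x)) * W n x| ≤ δ := by
    intro δ hδ
    rw [ae_iff, ← nonpos_iff_eq_zero]
    apply ENNReal.le_of_forall_pos_le_add
    intro ε hε _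
    rw [zero_add]
    have hε' : (0 : ℝ) < ε := by exact_mod_cast hε
    obtain ⟨s, hsr, H, hH, hHs⟩ := hsm (ε * (δ / 4) / (Fintype.card J + 1)) (by positivity)
    set R : ℝ := max (ℓ r - ℓ s) 1 with hRdef
    have hR : ℓ r - ℓ s ≤ R := le_max_left _ _
    have hR0 : 0 < R := lt_of_lt_of_le one_pos (le_max_right _ _)
    obtain ⟨L, Ex, hL, hEx, hEm⟩ := disp_unif hdisp hR0
    have hHm : ∀ v, Measurable (H v) := fun v => (hH v).1.mono (cm_le hFl hA s) le_rfl
    let E : J → X → ℝ := fun v x => limUnder atTop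
      (fun N => bx k N fun n => |H v (Φ (q n v) x)|)
    have hE : ∀ v, ∀ᵐ x ∂μ, Tendsto (fun N => bx k N fun n => |H v (Φ (q n v) x)|)
        atTop (𝓝 (E v x)) := by
      intro v
      have h4 := hgood v (fun x => |H v x|)
        (hHm v).abs ⟨1, fun x => by rw [abs_abs]; exact (hH v).2.1 x⟩
      filter_upwards [h4] with x hx
      exact tendsto_nhds_limUnder hx
    have hEint : ∀ v, 0 ≤ᵐ[μ] E v ∧ Integrable (E v) μ ∧
        ∫ x, E v x ∂μ ≤ ∫ x, |H v x| ∂μ := by
      intro v
      exact int_lim_le' (fun n => hFl (q n v)) (hHm v).abs (zero_le_one (α := ℝ))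
        (fun x => by rw [abs_abs]; exact (hH v).2.1 x) (fun x => abs_nonneg _) (hE v)
    let T : X → ℝ := fun x => ∑ v, E v x
    have hT0 : 0 ≤ᵐ[μ] T := by
      have : ∀ᵐ x ∂μ, ∀ v, 0 ≤ E v x := ae_all_iff.2 fun v => (hEint v).1
      filter_upwards [this] with x hx
      exact Finset.sum_nonneg fun v _ => hx v
    have hTi : Integrable T μ := integrable_finsetSum _ fun v _ => (hEint v).2.1
    have hTint : ∫ x, T x ∂μ ≤ ε * (δ / 4) := by
      have : ∫ x, T x ∂μ = ∑ v, ∫ x, E v x ∂μ :=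
        integral_finsetSum _ fun v _ => (hEint v).2.1
      rw [this]
      refine (Finset.sum_le_sum fun v _ => ((hEint v).2.2.trans (hHs v))).trans ?_
      rw [Finset.sum_const, nsmul_eq_mul, mul_div_assoc', div_le_iff₀ (by positivity),
        Finset.card_univ]
      have : 0 ≤ ε * (δ / 4) := by positivity
      nlinarith
    have hmark := mul_meas_ge_le_integral_of_nonneg hT0 hTi (δ / 4)
    have hmark' : μ.real {x | δ / 4 ≤ T x} ≤ ε := by
      have h5 : δ / 4 * μ.real {x | δ / 4 ≤ T x} ≤ δ / 4 * ε := by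
        refine (hmark.trans hTint).trans ?_
        rw [mul_comm]
      exact le_of_mul_le_mul_left h5 (by positivity)
    have hmain := bound_gen (η := δ / 4) hk hFl hA hY hsr hR hR0 hF hF1 hW hH hL hEm
      (by positivity)
    have hEall : ∀ᵐ x ∂μ, ∀ v, Tendsto (fun N => bx k N fun n =>
        |H v (Φ (q n v) x)|) atTop (𝓝 (E v x)) := ae_all_iff.2 hE
    have hclose : Tendsto (fun N => ∑ v, ∑ w ∈ Finset.univ.erase v, bx k N
        (fun n => if |ℓ (q n v) - ℓ (q n w)| < R then (1 : ℝ) else 0))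
        atTop (𝓝 0) := by
      have h5 : Tendsto (fun N => ∑ v, ∑ w ∈ Finset.univ.erase v, bx k N
          (fun n => if |ℓ (q n v) - ℓ (q n w)| < R then (1 : ℝ) else 0))
          atTop (𝓝 (∑ v : J, ∑ _w ∈ Finset.univ.erase v, (0 : ℝ))) := by
        refine tendsto_finsetSum _ fun v _ => tendsto_finsetSum _ fun w hw => ?_
        exact (hsepa v w (Finset.ne_of_mem_erase hw).symm R)
      rw [Finset.sum_eq_zero fun v _ => Finset.sum_const_zero] at h5
      exact h5
    have hlz : Tendsto (fun N => ∑ l, bx k N (fun n => if n ∈ Ex l then (1 : ℝ) else 0))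
        atTop (𝓝 0) := by
      have h5 := tendsto_finsetSum (Finset.univ : Finset (Fin k)) fun l _ => hEx l
      rw [Finset.sum_const_zero] at h5
      refine h5.congr fun N => ?_
      refine Finset.sum_congr rfl fun l _ => ?_
      congr 1
    have hsub : ∀ᵐ x ∂μ, x ∈ {x | ¬ ∀ᶠ N : Fin k → ℕ in atTop,
        |bx k N fun n => (∏ v, F v (Φ (q n v) x)) * W n x| ≤ δ} → x ∈ {x | δ / 4 ≤ T x} := by
      filter_upwards [hmain, hEall] with x hx1 hx2 hx3
      show δ / 4 ≤ T x
      by_contra hcon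
      rw [not_le] at hcon
      apply hx3
      have h6 : Tendsto (fun N => ∑ v, bx k N fun n => |H v (Φ (q n v) x)|)
          atTop (𝓝 (T x)) := tendsto_finsetSum _ fun v _ => hx2 v
      have h7 := (tendsto_order.mp h6).2 _ hcon
      have h8 := (tendsto_order.mp hclose).2 (δ / 4) (by positivity)
      have h9 := (tendsto_order.mp hlz).2 (δ / 4) (by positivity)
      filter_upwards [hx1, h7, h8, h9] with N hN1 hN2 hN3 hN4
      refine hN1.trans ?_
      have e : (bx k N fun n => errb Φ ℓ R H Finset.univ (q n) x) =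
          ∑ v, (bx k N fun n => |H v (Φ (q n v) x)|) +
          ∑ v, ∑ w ∈ Finset.univ.erase v, bx k N
            (fun n => if |ℓ (q n v) - ℓ (q n w)| < R then (1 : ℝ) else 0) := by
        unfold errb
        rw [bx_add, bx_sum, bx_sum]
        congr 1
        refine Finset.sum_congr rfl fun v _ => ?_
        rw [bx_sum]
      rw [e]
      linarith
    have h10 : μ {x | ¬ ∀ᶠ N : Fin k → ℕ in atTop,
        |bx k N fun n => (∏ v, F v (Φ (q n v) x)) * W n x| ≤ δ} ≤ μ {x | δ / 4 ≤ T x} :=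
      measure_mono_ae hsub
    refine h10.trans ?_
    have h9 : μ {x | δ / 4 ≤ T x} = ENNReal.ofReal (μ.real {x | δ / 4 ≤ T x}) := by
      rw [measureReal_def, ENNReal.ofReal_toReal (measure_ne_top _ _)]
    rw [h9]
    calc ENNReal.ofReal (μ.real {x | δ / 4 ≤ T x}) ≤ ENNReal.ofReal (ε : ℝ) :=
          ENNReal.ofReal_le_ofReal hmark'
      _ = ε := ENNReal.ofReal_coe_nnreal
  have hall := ae_all_iff.mpr fun i : ℕ => hbad (1 / ((i : ℝ) + 1)) (by positivity)
  filter_upwards [hall] with x hx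
  rw [Metric.tendsto_nhds]
  intro ε hε
  obtain ⟨i, hi⟩ := exists_nat_one_div_lt hε
  filter_upwards [hx i] with N hN
  rw [Real.dist_eq, sub_zero]
  exact hN.trans_lt hi

end Pool.Agent.Run7.h484.KB
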